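import Pool.Agent.H14.P3.Pairs
import Pool.Agent.H14.SK.AbsU

/-!
# Pairs with one member in each of two sets, weighted with balanced expansions (helper14)
-/

set_option autoImplicit false
set_option linter.unusedSectionVars false
set_option linter.deprecated false

namespace Pool.Agent.H14.P3Q

open Finset Pool.Agent.H14.SK Pool.Agent.H14.P3

/-- the weighted count of the pairs -/
theorem pairs_low3 (P : Finset ℕ) (hprime : ∀ p ∈ P, p.Prime)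
    (T : ℕ → ℤ → Prop) [∀ p n, Decidable (T p n)]
    (hT : ∀ p : ℕ, ∀ n m : ℤ, (p : ℤ) ∣ n - m → (T p n ↔ T p m))
    (c : Finset ℕ → ℝ) (G C R : ℝ) (hG : 0 < G) (hC : 0 ≤ C) (hR : 0 ≤ R)
    (hG0 : G ≤ c ∅) (hGq : ∀ q ⊆ P, |c q| ≤ R * G * C ^ q.card)
    (A₁ A₂ : Finset ℕ) (M D w : ℕ) (hA₁ : A₁ ⊆ Icc 1 M) (hA₂ : A₂ ⊆ Icc 1 M) (hc : A₂.card = A₁.card)
    (hw : 1 ≤ w) (hD1 : 1 ≤ D)
    (hlevel : ∀ q ⊆ P, c q ≠ 0 → Pr q ≤ D)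
    (hwp : ∀ p ∈ P, w ≤ p) (σ : ℝ) (hσ : 1 / 2 ≤ σ) (hσ1 : σ ≤ 1)
    (hCσ : ∀ p ∈ P, C * ((rho T p : ℝ) / p) ≤ (p : ℝ) ^ (-σ)) :
    G * A₁.card * (A₁.card - R * (42 * M * (w : ℝ) ^ (-σ) + 24 * (Nat.log 2 D + 1) * (D : ℝ) ^ (2 - σ))) ≤
      ∑ x ∈ A₁, ∑ y ∈ A₂, ∑ q ∈ P.powerset, c q *
        ∏ p ∈ q, ((if T p ((y : ℤ) - x) then (1 : ℝ) else 0) - (rho T p : ℝ) / p) := by
  classical
  set u : ℕ → ℝ := fun p => (rho T p : ℝ) / p with hu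
  have hu0 : ∀ p, 0 ≤ u p := fun p => by simp only [hu]; positivity
  have h1 : ∑ x ∈ A₁, ∑ y ∈ A₂, ∑ q ∈ P.powerset, c q *
        ∏ p ∈ q, ((if T p ((y : ℤ) - x) then (1 : ℝ) else 0) - (rho T p : ℝ) / p) =
      ∑ q ∈ P.powerset, c q *
        ∑ x ∈ A₁, ∑ y ∈ A₂, ∏ p ∈ q, ((if T p ((y : ℤ) - x) then (1 : ℝ) else 0) - u p) := by
    rw [sum_congr rfl fun x _ => sum_comm, sum_comm]
    apply sum_congr rfl
    intro q _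
    rw [mul_sum]
    apply sum_congr rfl
    intro x _
    rw [mul_sum]
  rw [h1, ← add_sum_erase _ _ (empty_mem_powerset P)]
  have h2 : ∑ x ∈ A₁, ∑ y ∈ A₂, ∏ p ∈ (∅ : Finset ℕ), ((if T p ((y : ℤ) - x) then (1 : ℝ) else 0) - u p) =
      (A₁.card : ℝ) * A₁.card := by
    simp [hc]
  rw [h2]
  -- the other terms
  obtain ⟨𝒬, h𝒬⟩ : ∃ 𝒬, 𝒬 = (P.powerset.erase ∅).filter (fun q => c q ≠ 0) := ⟨_, rfl⟩
  have hq𝒬 : ∀ q ∈ 𝒬, q.Nonempty ∧ q ⊆ P ∧ c q ≠ 0 := by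
    intro q hq
    rw [h𝒬, mem_filter, mem_erase, mem_powerset] at hq
    exact ⟨nonempty_iff_ne_empty.2 hq.1.1, hq.1.2, hq.2⟩
  have h3 : |∑ q ∈ P.powerset.erase ∅, c q *
      ∑ x ∈ A₁, ∑ y ∈ A₂, ∏ p ∈ q, ((if T p ((y : ℤ) - x) then (1 : ℝ) else 0) - u p)| ≤
      R * G * ∑ q ∈ 𝒬, ((Pr q : ℕ) : ℝ) ^ (-σ) * ((EE A₁ q + EE A₂ q) / 2) := by
    have e2 : ∑ q ∈ P.powerset.erase ∅, c q *
        ∑ x ∈ A₁, ∑ y ∈ A₂, ∏ p ∈ q, ((if T p ((y : ℤ) - x) then (1 : ℝ) else 0) - u p) =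
        ∑ q ∈ 𝒬, c q *
        ∑ x ∈ A₁, ∑ y ∈ A₂, ∏ p ∈ q, ((if T p ((y : ℤ) - x) then (1 : ℝ) else 0) - u p) := by
      rw [h𝒬, sum_filter_of_ne]
      intro q _ hne
      exact left_ne_zero_of_mul hne
    rw [e2, mul_sum]
    refine (abs_sum_le_sum_abs _ _).trans (sum_le_sum fun q hq => ?_)
    obtain ⟨_, hq2, _⟩ := hq𝒬 q hq
    have hqp : ∀ p ∈ q, p.Prime := fun p hp => hprime p (hq2 hp)
    rw [abs_mul]
    have e3 := balanced2 T hT A₁ A₂ hqp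
    have e4 := hGq q hq2
    have e5 : C ^ q.card * ∏ p ∈ q, u p ≤ ((Pr q : ℕ) : ℝ) ^ (-σ) := by
      rw [← prod_const, ← prod_mul_distrib]
      calc ∏ p ∈ q, C * u p ≤ ∏ p ∈ q, (p : ℝ) ^ (-σ) :=
            prod_le_prod (fun p _ => mul_nonneg hC (hu0 p)) (fun p hp => hCσ p (hq2 hp))
        _ = (∏ p ∈ q, (p : ℝ)) ^ (-σ) := (Real.finsetProd_rpow q _ (fun p _ => by positivity) _)
        _ = _ := by
            unfold Pr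
            push_cast
            rfl
    have hprod0 : 0 ≤ ∏ p ∈ q, u p := prod_nonneg fun p _ => hu0 p
    have hE0 : 0 ≤ (EE A₁ q + EE A₂ q) / 2 := by
      have h01 := EE_nonneg A₁ q
      have h02 := EE_nonneg A₂ q
      linarith
    calc |c q| * |∑ x ∈ A₁, ∑ y ∈ A₂, ∏ p ∈ q,
          ((if T p ((y : ℤ) - x) then (1 : ℝ) else 0) - u p)|
        ≤ (R * G * C ^ q.card) * ((∏ p ∈ q, u p) * ((EE A₁ q + EE A₂ q) / 2)) :=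
          mul_le_mul e4 e3 (abs_nonneg _) (by positivity)
      _ = R * G * ((C ^ q.card * ∏ p ∈ q, u p) * ((EE A₁ q + EE A₂ q) / 2)) := by ring
      _ ≤ R * G * (((Pr q : ℕ) : ℝ) ^ (-σ) * ((EE A₁ q + EE A₂ q) / 2)) := by
          apply mul_le_mul_of_nonneg_left _ (by positivity)
          exact mul_le_mul_of_nonneg_right e5 hE0
  have hdy : ∀ A : Finset ℕ, A ⊆ Icc 1 M → ∑ q ∈ 𝒬, ((Pr q : ℕ) : ℝ) ^ (-σ) * EE A q ≤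
      (42 * M * (w : ℝ) ^ (-σ) + 24 * (Nat.log 2 D + 1) * (D : ℝ) ^ (2 - σ)) * A.card := fun A hA =>
    dyadic2 A M D w hA hw hD1 σ hσ hσ1 𝒬 (fun q hq p hp => hprime p ((hq𝒬 q hq).2.1 hp))
    (fun q hq => hlevel q (hq𝒬 q hq).2.1 (hq𝒬 q hq).2.2) (by
      intro q hq
      obtain ⟨⟨p, hp⟩, hq2, _⟩ := hq𝒬 q hq
      refine (hwp p (hq2 hp)).trans ?_
      exact Nat.le_of_dvd (Pr_pos fun p hp => hprime p (hq2 hp)) (dvd_prod_of_mem (fun p => p) hp))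
  have h4 : ∑ q ∈ 𝒬, ((Pr q : ℕ) : ℝ) ^ (-σ) * ((EE A₁ q + EE A₂ q) / 2) ≤
      (42 * M * (w : ℝ) ^ (-σ) + 24 * (Nat.log 2 D + 1) * (D : ℝ) ^ (2 - σ)) * A₁.card := by
    have e1 : ∑ q ∈ 𝒬, ((Pr q : ℕ) : ℝ) ^ (-σ) * ((EE A₁ q + EE A₂ q) / 2) =
        (∑ q ∈ 𝒬, ((Pr q : ℕ) : ℝ) ^ (-σ) * EE A₁ q + ∑ q ∈ 𝒬, ((Pr q : ℕ) : ℝ) ^ (-σ) * EE A₂ q) / 2 := by
      rw [← sum_add_distrib, sum_div]
      apply sum_congr rfl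
      intro q _
      ring
    rw [e1]
    have e2 := hdy A₁ hA₁
    have e3 := hdy A₂ hA₂
    rw [hc] at e3
    linarith
  have h5 : R * G * ∑ q ∈ 𝒬, ((Pr q : ℕ) : ℝ) ^ (-σ) * ((EE A₁ q + EE A₂ q) / 2) ≤
      R * G * ((42 * M * (w : ℝ) ^ (-σ) + 24 * (Nat.log 2 D + 1) * (D : ℝ) ^ (2 - σ)) * A₁.card) :=
    mul_le_mul_of_nonneg_left h4 (by positivity)
  have h6 := (abs_le.1 (h3.trans h5)).1
  have h7 : G * ((A₁.card : ℝ) * A₁.card) ≤ c ∅ * ((A₁.card : ℝ) * A₁.card) :=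
    mul_le_mul_of_nonneg_right hG0 (by positivity)
  nlinarith

end Pool.Agent.H14.P3Q
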