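import Pool.Agent.H14.P3.Rho
import Pool.Agent.H14.P3Q.Pairs

/-!
# The sifting condition for a quadratic polynomial at the shifted differences (helper14)
-/

set_option autoImplicit false
set_option linter.unusedSectionVars false
set_option linter.deprecated false

namespace Pool.Agent.H14.P3Q

open Finset Pool.Agent.H14.SK Pool.Agent.Y882.SI Pool.Agent.Y882.PX

/-- the value of the quadratic polynomial `a X ^ 2 + b X + c` at `n` -/
def qf (a b c n : ℤ) : ℤ := a * n ^ 2 + b * n + c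

/-- the sifting condition for the differences divided by `W`, shifted by `h` -/
def TG (a b c h : ℤ) (W p : ℕ) (n : ℤ) : Prop := (p : ℤ) ∣ qf a b c (h + (W : ℤ) * n)

instance (a b c h : ℤ) (W p : ℕ) (n : ℤ) : Decidable (TG a b c h W p n) := by
  unfold TG; infer_instance

lemma dvd_iff_of_sub {d x y : ℤ} (h : d ∣ x - y) : d ∣ x ↔ d ∣ y := by
  constructor
  · intro h3
    have := dvd_sub h3 h
    rwa [sub_sub_cancel] at this
  · intro h3
    have := dvd_add h h3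
    rwa [sub_add_cancel] at this

lemma qf_per (a b c : ℤ) (p : ℕ) (n m : ℤ) (h : (p : ℤ) ∣ n - m) :
    (p : ℤ) ∣ qf a b c n ↔ (p : ℤ) ∣ qf a b c m := by
  apply dvd_iff_of_sub
  have h1 : qf a b c n - qf a b c m = (n - m) * (a * (n + m) + b) := by
    unfold qf
    ring
  rw [h1]
  exact h.mul_right _

lemma TG_per (a b c h : ℤ) (W p : ℕ) (n m : ℤ) (hnm : (p : ℤ) ∣ n - m) :
    TG a b c h W p n ↔ TG a b c h W p m := by
  unfold TG
  apply qf_per
  have e : h + (W : ℤ) * n - (h + W * m) = W * (n - m) := by ring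
  rw [e]
  exact hnm.mul_left _

lemma cnt_le' (p : ℕ) (hp : p.Prime) (h V : ℤ) (hV : ¬ (p : ℤ) ∣ V) (P : ℤ → Prop) [DecidablePred P]
    (hP : ∀ n m : ℤ, (p : ℤ) ∣ n - m → (P n ↔ P m)) :
    ((range p).filter (fun r : ℕ => P (h + V * r))).card ≤
      ((range p).filter (fun s : ℕ => P (s : ℤ))).card := by
  have hp0 : (0 : ℤ) < p := by exact_mod_cast hp.pos
  have hpZ : Prime (p : ℤ) := Nat.prime_iff_prime_int.1 hp
  have key : ∀ x : ℤ, (((x % (p : ℤ)).toNat : ℕ) : ℤ) = x % p := fun x =>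
    Int.toNat_of_nonneg (Int.emod_nonneg _ hp0.ne')
  apply card_le_card_of_injOn (fun r : ℕ => ((h + V * (r : ℤ)) % (p : ℤ)).toNat)
  · intro r hr
    simp only [coe_filter, Set.mem_setOf_eq, mem_range] at hr ⊢
    refine ⟨?_, ?_⟩
    · have h1 := Int.emod_lt_of_pos (h + V * r) hp0
      rw [← key] at h1
      exact_mod_cast h1
    · refine (hP _ _ ?_).1 hr.2
      rw [key]
      exact Int.dvd_self_sub_emod
  · intro r hr r' hr' hrr
    simp only [coe_filter, Set.mem_setOf_eq, mem_range] at hr hr'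
    have h1 : (h + V * r) % (p : ℤ) = (h + V * r') % (p : ℤ) := by
      have h0 : ((h + V * r) % (p : ℤ)).toNat = ((h + V * r') % (p : ℤ)).toNat := hrr
      rw [← key (h + V * r), ← key (h + V * r'), h0]
    have h2 : (p : ℤ) ∣ (h + V * r') - (h + V * r) := (Int.ModEq.dvd (show _ ≡ _ [ZMOD p] from h1))
    have h3 : (p : ℤ) ∣ V * ((r' : ℤ) - r) := by
      have e : (h + V * r') - (h + V * r) = V * ((r' : ℤ) - r) := by ring
      rwa [e] at h2
    rcases hpZ.dvd_or_dvd h3 with h4 | h4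
    · exact absurd h4 hV
    · have h5 : r ≡ r' [MOD p] := (Nat.modEq_iff_dvd).2 h4
      exact Nat.ModEq.eq_of_lt_of_lt h5 hr.1 hr'.1

lemma cnt_eq (p : ℕ) (hp : p.Prime) (h V : ℤ) (hV : ¬ (p : ℤ) ∣ V) (P : ℤ → Prop) [DecidablePred P]
    (hP : ∀ n m : ℤ, (p : ℤ) ∣ n - m → (P n ↔ P m)) :
    ((range p).filter (fun r : ℕ => P (h + V * r))).card =
      ((range p).filter (fun s : ℕ => P (s : ℤ))).card := by
  apply le_antisymm (cnt_le' p hp h V hV P hP)
  have hpZ : Prime (p : ℤ) := Nat.prime_iff_prime_int.1 hp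
  have hco : IsCoprime (p : ℤ) V := (Prime.coprime_iff_not_dvd hpZ).2 hV
  obtain ⟨s, t, hst⟩ := hco
  -- `t * V = 1 - s * p`
  have htp : ¬ (p : ℤ) ∣ t := by
    intro h1
    apply hpZ.not_dvd_one
    rw [← hst]
    exact dvd_add (dvd_mul_left _ _) (h1.mul_right _)
  have hP' : ∀ n m : ℤ, (p : ℤ) ∣ n - m → (P (h + V * n) ↔ P (h + V * m)) := by
    intro n m hnm
    apply hP
    have e : h + V * n - (h + V * m) = V * (n - m) := by ring
    rw [e]
    exact hnm.mul_left _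
  have hc := cnt_le' p hp (-(t * h)) t htp (fun n => P (h + V * n)) hP'
  have e : (range p).filter (fun r : ℕ => P (h + V * (-(t * h) + t * r))) =
      (range p).filter (fun r : ℕ => P (r : ℤ)) := by
    apply filter_congr
    intro r _
    apply hP
    have e2 : h + V * (-(t * h) + t * r) - r = (p : ℤ) * (s * (h - r)) := by
      linear_combination (r - h) * hst
    rw [e2]
    exact dvd_mul_right _ _
  calc ((range p).filter (fun r : ℕ => P (r : ℤ))).card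
      = ((range p).filter (fun r : ℕ => P (h + V * (-(t * h) + t * r)))).card := by
        rw [e]
    _ ≤ _ := hc

lemma rho_eq_card' (a b c h : ℤ) (W p : ℕ) :
    rho (TG a b c h W) p =
      ((range p).filter (fun r : ℕ => (p : ℤ) ∣ qf a b c (h + (W : ℤ) * r))).card := by
  unfold rho TG
  rfl

lemma ro_card (k : ℤ) (p : ℕ) : ro (QF k) 0 p = ((range p).filter (fun r : ℕ => (p : ℤ) ∣ (r : ℤ) ^ 2 + k)).card := by
  rw [ro_eq]
  congr 1
  apply filter_congr
  intro r _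
  rw [QF_eval, add_zero]

lemma sqk_per (k : ℤ) (p : ℕ) (n m : ℤ) (h : (p : ℤ) ∣ n - m) : (p : ℤ) ∣ n ^ 2 + k ↔ (p : ℤ) ∣ m ^ 2 + k := by
  apply dvd_iff_of_sub
  have h1 : n ^ 2 + k - (m ^ 2 + k) = (n - m) * (n + m) := by ring
  rw [h1]
  exact h.mul_right _

lemma four_qf (a b c n : ℤ) : 4 * a * qf a b c n = (2 * a * n + b) ^ 2 + (-(b ^ 2 - 4 * a * c)) := by
  unfold qf
  ring

lemma rho_eq' (a b c h : ℤ) (W p : ℕ) (hp : p.Prime) (hW : ¬ p ∣ W) (ha : ¬ (p : ℤ) ∣ 2 * a) :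
    rho (TG a b c h W) p = ro (QF (-(b ^ 2 - 4 * a * c))) 0 p := by
  have hpZ : Prime (p : ℤ) := Nat.prime_iff_prime_int.1 hp
  rw [rho_eq_card', ro_card]
  have hV : ¬ (p : ℤ) ∣ 2 * a * (W : ℤ) := by
    intro h1
    rcases hpZ.dvd_or_dvd h1 with h2 | h2
    · exact ha h2
    · exact hW (Int.natCast_dvd_natCast.1 h2)
  rw [← cnt_eq p hp (2 * a * h + b) (2 * a * (W : ℤ)) hV
    (fun n => (p : ℤ) ∣ n ^ 2 + (-(b ^ 2 - 4 * a * c))) (sqk_per _ p)]
  congr 1
  apply filter_congr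
  intro r _
  have h4 : ¬ (p : ℤ) ∣ 4 * a := by
    intro h1
    have h2 : (p : ℤ) ∣ 2 * (2 * a) := by
      have e : 4 * a = 2 * (2 * a) := by ring
      rwa [e] at h1
    rcases hpZ.dvd_or_dvd h2 with h3 | h3
    · exact ha (h3.mul_right _)
    · exact ha h3
  have e : (2 * a * h + b + 2 * a * (W : ℤ) * r) ^ 2 + (-(b ^ 2 - 4 * a * c)) =
      4 * a * qf a b c (h + (W : ℤ) * r) := by
    rw [four_qf]
    ring
  rw [e]
  constructor
  · intro h5
    exact h5.mul_left _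
  · intro h5
    rcases hpZ.dvd_or_dvd h5 with h6 | h6
    · exact absurd h6 h4
    · exact h6

lemma rho_zero' (a b c h : ℤ) (W p : ℕ) (hW : p ∣ W) (hh : ¬ (p : ℤ) ∣ qf a b c h) :
    rho (TG a b c h W) p = 0 := by
  rw [rho_eq_card', card_eq_zero, filter_eq_empty_iff]
  rintro r _ hd
  apply hh
  refine (qf_per a b c p _ _ ?_).1 hd
  rw [add_sub_cancel_left]
  exact (Int.natCast_dvd_natCast.2 hW).mul_right _

lemma rho_le_ro'' (a b c h : ℤ) (W p : ℕ) (hp : p.Prime) (hh : p ∣ W → ¬ (p : ℤ) ∣ qf a b c h)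
    (ha : ¬ p ∣ W → ¬ (p : ℤ) ∣ 2 * a) :
    rho (TG a b c h W) p ≤ ro (QF (-(b ^ 2 - 4 * a * c))) 0 p := by
  by_cases hpW : p ∣ W
  · rw [rho_zero' a b c h W p hpW (hh hpW)]
    exact Nat.zero_le _
  · exact (rho_eq' a b c h W p hp hpW (ha hpW)).le

lemma rho_le_two' (a b c h : ℤ) (W p : ℕ) (hp : p.Prime) (hh : p ∣ W → ¬ (p : ℤ) ∣ qf a b c h)
    (ha : ¬ p ∣ W → ¬ (p : ℤ) ∣ 2 * a) :
    rho (TG a b c h W) p ≤ 2 :=
  (rho_le_ro'' a b c h W p hp hh ha).trans (ro_quad_le _ p hp)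

/-- the density of the small primes -/
lemma prod_low' (a b c : ℤ) (hD : ¬ IsSquare (b ^ 2 - 4 * a * c)) : ∃ κ : ℝ, 0 < κ ∧
    ∀ (h : ℤ) (W w z N : ℕ),
    (∀ p : ℕ, p.Prime → p ∣ W → ¬ (p : ℤ) ∣ qf a b c h) →
    (∀ p : ℕ, p.Prime → ¬ p ∣ W → ¬ (p : ℤ) ∣ 2 * a) → 3 ≤ N → z ≤ N →
    κ / Real.log N ≤ ∏ p ∈ (Ioc w z).filter Nat.Prime, (1 - (rho (TG a b c h W) p : ℝ) / p) := by
  obtain ⟨κ, hκ, h0⟩ := lo_quad (-(b ^ 2 - 4 * a * c)) (by rw [neg_neg]; exact hD)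
  refine ⟨κ, hκ, ?_⟩
  intro h W w z N hh ha hN hz
  refine (h0 N hN).trans ?_
  unfold lo
  obtain ⟨ρ, hρ⟩ : ∃ ρ : ℕ → ℕ, ρ = fun p => ro (QF (-(b ^ 2 - 4 * a * c))) 0 p := ⟨_, rfl⟩
  have hρ' : ∀ p, ro (QF (-(b ^ 2 - 4 * a * c))) 0 p = ρ p := fun p => by rw [hρ]
  simp only [hρ']
  have hsub : (Ioc w z).filter Nat.Prime ⊆ (Icc 1 N).filter Nat.Prime := by
    intro p hp
    rw [mem_filter, mem_Ioc] at hp
    rw [mem_filter, mem_Icc]
    exact ⟨⟨by omega, by omega⟩, hp.2⟩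
  have h01 : ∀ p : ℕ, p.Prime → 0 ≤ 1 - (ρ p : ℝ) / p ∧ 1 - (ρ p : ℝ) / p ≤ 1 := by
    intro p hpp
    have hp0 : (0 : ℝ) < p := by exact_mod_cast hpp.pos
    have h1 : (ρ p : ℝ) ≤ p := by
      rw [← hρ']
      exact_mod_cast ro_le_self (QF _) 0 p
    constructor
    · rw [sub_nonneg, div_le_one hp0]
      exact h1
    · have : 0 ≤ (ρ p : ℝ) / p := by positivity
      linarith
  rw [← prod_sdiff hsub]
  calc (∏ p ∈ (Icc 1 N).filter Nat.Prime \ (Ioc w z).filter Nat.Prime, (1 - (ρ p : ℝ) / p)) *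
      ∏ p ∈ (Ioc w z).filter Nat.Prime, (1 - (ρ p : ℝ) / p) ≤
      1 * ∏ p ∈ (Ioc w z).filter Nat.Prime, (1 - (ρ p : ℝ) / p) := by
        apply mul_le_mul_of_nonneg_right
        · apply prod_le_one
          · intro p hp
            exact (h01 p (mem_filter.1 (mem_sdiff.1 hp).1).2).1
          · intro p hp
            exact (h01 p (mem_filter.1 (mem_sdiff.1 hp).1).2).2
        · exact prod_nonneg fun p hp => (h01 p (mem_filter.1 hp).2).1
    _ = ∏ p ∈ (Ioc w z).filter Nat.Prime, (1 - (ρ p : ℝ) / p) := one_mul _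
    _ ≤ _ := by
        apply prod_le_prod
        · intro p hp
          exact (h01 p (mem_filter.1 hp).2).1
        · intro p hp
          have hpp := (mem_filter.1 hp).2
          have h3 : (rho (TG a b c h W) p : ℝ) ≤ ρ p := by
            rw [← hρ']
            exact_mod_cast rho_le_ro'' a b c h W p hpp (hh p hpp) (ha p hpp)
          have h4 : (rho (TG a b c h W) p : ℝ) / p ≤ (ρ p : ℝ) / p :=
            div_le_div_of_nonneg_right h3 (by positivity)
          linarith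

end Pool.Agent.H14.P3Q
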