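import Pool.Agent.H14.P3.Cls
import Pool.Agent.H14.P3Q.Rho

/-!
# Pairs with one member in each of two subsets of a residue class (helper14)
-/

set_option autoImplicit false
set_option linter.unusedSectionVars false
set_option linter.deprecated false

namespace Pool.Agent.H14.P3Q

open Finset Pool.Agent.H14.SK Pool.Agent.H14.P3 Pool.Agent.Y882.SI Pool.Agent.Y882.PX Pool.Agent.Y882.KW Filter
open Pool.Agent.W23.DC Pool.Agent.Y882

open Classical in
lemma point' (N : ℕ) (hN : 2 ≤ N) (ε₁ : ℝ) (w z W : ℕ) (hz : z = ⌈(N : ℝ) ^ ε₁⌉₊ - 1)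
    (hW : ∀ p : ℕ, p.Prime → p ≤ w → p ∣ W) (a b c h : ℤ)
    (hh : ∀ p : ℕ, p.Prime → p ≤ w → ¬ (p : ℤ) ∣ qf a b c h)
    (cL : Finset ℕ → ℝ)
    (hcL : ∀ M : ℕ, VV (pr N ε₁ ups) cL (fun p => if p ∣ M then 1 else 0) ≤
      WB N ε₁ zet ups lam (lam / ups) M) (n : ℤ) :
    (if Sft (TG a b c h W) w z n then (1 : ℝ) else 0) * ∑ d ∈ (pr N ε₁ ups).powerset,
      cL d * ∏ p ∈ d, (if TG a b c h W p n then (1 : ℝ) else 0) ≤
    if 0 < WW N zet ups lam (lam / ups) (qf a b c (h + (W : ℤ) * n)).natAbs then 1 else 0 := by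
  obtain ⟨M, hM⟩ : ∃ M : ℕ, M = (qf a b c (h + (W : ℤ) * n)).natAbs := ⟨_, rfl⟩
  have hdv : ∀ p : ℕ, TG a b c h W p n ↔ p ∣ M := by
    intro p
    unfold TG
    rw [hM]
    exact Int.natCast_dvd
  have e1 : ∑ d ∈ (pr N ε₁ ups).powerset, cL d * ∏ p ∈ d, (if TG a b c h W p n then (1 : ℝ) else 0) =
      VV (pr N ε₁ ups) cL (fun p => if p ∣ M then 1 else 0) := by
    unfold VV
    apply sum_congr rfl
    intro d _
    congr 1
    apply prod_congr rfl
    intro p _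
    show (if TG a b c h W p n then (1 : ℝ) else 0) = if p ∣ M then 1 else 0
    by_cases h : p ∣ M
    · rw [if_pos ((hdv p).2 h), if_pos h]
    · rw [if_neg (fun h' => h ((hdv p).1 h')), if_neg h]
  rw [e1, ← hM]
  by_cases hs : Sft (TG a b c h W) w z n
  · rw [if_pos hs, one_mul]
    refine (hcL M).trans ?_
    have hsmall : ∀ p : ℕ, p.Prime → tt N p < ε₁ → ¬ p ∣ M := by
      intro p hp hlt hd
      by_cases hpw : p ≤ w
      · apply hh p hp hpw
        have h2 : (p : ℤ) ∣ qf a b c (h + (W : ℤ) * n) := by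
          rw [Int.natCast_dvd, ← hM]
          exact hd
        refine (qf_per a b c p _ _ ?_).1 h2
        rw [add_sub_cancel_left]
        exact (Int.natCast_dvd_natCast.2 (hW p hp hpw)).mul_right _
      · apply hs p hp (by omega) _ ((hdv p).2 hd)
        have h1 := (tt_lt N p ε₁ hN hp.pos).1 hlt
        have h2 := Nat.lt_ceil.2 h1
        omega
    have e2 : WB N ε₁ zet ups lam (lam / ups) M = WW N zet ups lam (lam / ups) M := by
      unfold WB WW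
      congr 1
      have hiff : (∀ p ∈ pr N ε₁ zet, ¬ p ∣ M) ↔ (∀ p ∈ PZ N zet, ¬ p ∣ M) := by
        constructor
        · intro h p hp
          unfold PZ at hp
          rw [mem_filter] at hp
          by_cases hlt : tt N p < ε₁
          · exact hsmall p hp.2.1 hlt
          · apply h p
            unfold pr
            rw [mem_filter]
            exact ⟨hp.1, hp.2.1, not_lt.1 hlt, hp.2.2⟩
        · intro h p hp
          apply h p
          unfold pr at hp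
          unfold PZ
          rw [mem_filter] at hp ⊢
          exact ⟨hp.1, hp.2.1, hp.2.2.2⟩
      by_cases h : ∀ p ∈ pr N ε₁ zet, ¬ p ∣ M
      · rw [if_pos h, if_pos (hiff.1 h)]
      · rw [if_neg h, if_neg (fun h' => h (hiff.2 h'))]
    rw [e2]
    have hups : 0 < ups := by rw [ups_val]; norm_num
    have hlam : 0 < lam := by unfold lam; norm_num
    have hle := WW_le_one N zet ups lam (lam / ups) (by positivity)
      (le_of_eq (div_mul_cancel₀ _ hups.ne')) M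
    by_cases h : 0 < WW N zet ups lam (lam / ups) M
    · rw [if_pos h]
      exact hle
    · rw [if_neg h]
      exact not_lt.1 h
  · rw [if_neg hs, zero_mul]
    split_ifs <;> norm_num

open Classical in
/-- **Pairs in a residue class.** -/
theorem cls3 (ca cb cc : ℤ) (hD : ¬ IsSquare (cb ^ 2 - 4 * ca * cc)) :
    ∃ (ε₁ C₅ C₆ c₁ : ℝ) (N₀ : ℕ), 0 < ε₁ ∧ 0 < C₅ ∧ 0 < C₆ ∧ 0 < c₁ ∧
    ∀ N : ℕ, N₀ ≤ N → ∀ w : ℕ, 4 ≤ w → (2 * ca).natAbs ≤ w → (w : ℝ) < (N : ℝ) ^ ε₁ →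
      (w : ℝ) ≤ (N : ℝ) ^ (1 / 2000 : ℝ) →
      (primorial w : ℝ) ≤ (N : ℝ) ^ (1 / 2000 : ℝ) → ∀ σ : ℝ, 99 / 100 ≤ σ → σ ≤ 1 → C₆ ≤ (w : ℝ) ^ (1 - σ) →
      ∀ h : ℤ, (∀ p : ℕ, p.Prime → p ≤ w → ¬ (p : ℤ) ∣ qf ca cb cc h) →
      ∀ A₁ A₂ : Finset ℕ, A₁ ⊆ Icc 1 N → A₂ ⊆ Icc 1 N → A₂.card = A₁.card → ∀ r : ℕ,
      (∀ x ∈ A₁, x % primorial w = r) → (∀ x ∈ A₂, x % primorial w = r) →
      c₁ / Real.log N * (A₁.card * (A₁.card -
          C₅ * ((N / primorial w + 1 : ℕ) : ℝ) * (w : ℝ) ^ (-σ))) ≤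
        (((A₁ ×ˢ A₂).filter (fun x =>
          0 < WW N zet ups lam (lam / ups) (qf ca cb cc (h + ((x.2 : ℤ) - x.1))).natAbs)).card : ℝ) := by
  have hca : ca ≠ 0 := by
    intro h0
    apply hD
    rw [h0]
    exact ⟨cb, by ring⟩
  have hzv := zet_val
  have huv := ups_val
  have htv : tau = 39 / 40 := rfl
  have hlv : lam = 20 / 31 := rfl
  have hlam : 0 < lam := by rw [hlv]; norm_num
  have hups : 0 < ups := by rw [huv]; norm_num
  obtain ⟨E, C, hE, hC1, hsv⟩ := sieve_pm 2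
  obtain ⟨f0, F0, hf0, hF0, hls⟩ := lsw4 tau zet ups lam (lam / ups) (by rw [hzv]; norm_num)
    (by rw [hzv, htv]; norm_num) (by rw [hzv, htv]; norm_num) (by rw [htv]; norm_num)
    (by rw [hzv, huv]; norm_num) (by rw [huv, htv]; norm_num) hlam.le (by positivity)
    (le_of_eq (div_mul_cancel₀ _ hups.ne'))
    (cond_B tau lam (by rw [htv]; norm_num) hlam (by rw [hlv]; norm_num))
  obtain ⟨K, hK⟩ : ∃ K : ℝ, K = 1 + lam := ⟨_, rfl⟩
  have hK0 : 0 < K := by rw [hK]; linarith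
  obtain ⟨B, ε₁, hε₁, hεB, hε480, hEB, hpar⟩ := params E K f0 hE hK0 hf0
  obtain ⟨η, hη, hls⟩ := hls ε₁ hε₁ (by rw [hzv]; linarith) (by rw [huv, htv]; linarith)
  obtain ⟨N1, hmer⟩ := mer_quad (-(cb ^ 2 - 4 * ca * cc)) (by rw [neg_neg]; exact hD) ε₁ ups (min η 1) hε₁ (by rw [huv]; norm_num)
    (lt_min hη one_pos)
  obtain ⟨cl, hcl, hlow⟩ := prod_low' ca cb cc hD
  obtain ⟨S, hS⟩ : ∃ S : ℝ, S = Real.log (ups / ε₁) + 1 := ⟨_, rfl⟩
  obtain ⟨f, hf⟩ : ∃ f : ℝ, f = ε₁ * f0 := ⟨_, rfl⟩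
  have hf0' : 0 < f := by rw [hf]; positivity
  obtain ⟨R, hR⟩ : ∃ R : ℝ, R = 4 * (K * Real.exp S) / (f / 2) := ⟨_, rfl⟩
  have hR0 : 0 < R := by rw [hR]; positivity
  obtain ⟨N2, hN2⟩ := eventually_atTop.1 ev_log
  obtain ⟨N3, hN3⟩ := eventually_atTop.1
    (((tendsto_rpow_atTop hε₁).comp tendsto_natCast_atTop_atTop).eventually_ge_atTop (2 : ℝ))
  refine ⟨ε₁, R * 43, 2 * C, cl * (f / 2), max (max N1 N2) (max N3 3), hε₁, by positivity, by linarith,
    by positivity, ?_⟩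
  intro N hN w hw4 hwa hwε hw2000 hW2000 σ hσ hσ1 hCw h hh A₁ A₂ hA₁ hA₂ hAc r hm₁ hm₂
  have hNN1 : N1 ≤ N := ((le_max_left _ _).trans (le_max_left _ _)).trans hN
  have hNN2 : N2 ≤ N := ((le_max_right _ _).trans (le_max_left _ _)).trans hN
  have hNN3 : N3 ≤ N := ((le_max_left _ _).trans (le_max_right _ _)).trans hN
  have hN3' : 3 ≤ N := ((le_max_right _ _).trans (le_max_right _ _)).trans hN
  have hlog := hN2 N hNN2
  have hNε : (2 : ℝ) ≤ (N : ℝ) ^ ε₁ := hN3 N hNN3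
  have hN0 : (0 : ℝ) < N := by exact_mod_cast (by omega : 0 < N)
  have hN1r : (1 : ℝ) ≤ N := by exact_mod_cast (by omega : 1 ≤ N)
  have hL0 : 0 < Real.log N := Real.log_pos (by exact_mod_cast (by omega : 1 < N))
  obtain ⟨W, hWd⟩ : ∃ W, W = primorial w := ⟨_, rfl⟩
  rw [← hWd] at hW2000 hm₁ hm₂ ⊢
  have hW0 : 0 < W := by rw [hWd]; exact primorial_pos w
  have hWp : ∀ p : ℕ, p.Prime → (p ∣ W ↔ p ≤ w) := by
    intro p hp
    rw [hWd]
    exact Nat.Prime.dvd_primorial_iff hp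
  have hhW : ∀ p : ℕ, p.Prime → p ∣ W → ¬ (p : ℤ) ∣ qf ca cb cc h := fun p hp hpW =>
    hh p hp ((hWp p hp).1 hpW)
  have haW : ∀ p : ℕ, p.Prime → ¬ p ∣ W → ¬ (p : ℤ) ∣ 2 * ca := by
    intro p hp hpW hd
    apply hpW
    rw [hWp p hp]
    refine le_trans ?_ hwa
    apply Nat.le_of_dvd
    · exact Int.natAbs_pos.2 (mul_ne_zero (by norm_num) hca)
    · exact Int.natCast_dvd.1 hd
  obtain ⟨z, hz⟩ : ∃ z : ℕ, z = ⌈(N : ℝ) ^ ε₁⌉₊ - 1 := ⟨_, rfl⟩
  have hceil : 2 ≤ ⌈(N : ℝ) ^ ε₁⌉₊ := by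
    have : (2 : ℝ) ≤ ((⌈(N : ℝ) ^ ε₁⌉₊ : ℕ) : ℝ) := hNε.trans (Nat.le_ceil _)
    exact_mod_cast this
  have hz1 : 1 ≤ z := by omega
  have hzlt : (z : ℝ) < (N : ℝ) ^ ε₁ := Nat.lt_ceil.1 (by omega)
  have hzN : z ≤ N := by
    have h1 : (z : ℝ) ≤ (N : ℝ) ^ (1 : ℝ) :=
      hzlt.le.trans (Real.rpow_le_rpow_of_exponent_le hN1r (by linarith))
    rw [Real.rpow_one] at h1
    exact_mod_cast h1
  -- the sieves
  obtain ⟨cK, cL, k1, k2, k3, k4, k5, k6, k7⟩ := hsv B hEB (TG ca cb cc h W) (fun p hp => rho_le_two' ca cb cc h W p hp (hhW p hp) (haW p hp)) w z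
    (by omega) (by omega) hz1
  obtain ⟨cU, c2, l1, l2, l3, l4⟩ := hls N (by omega)
  obtain ⟨P1, hP1⟩ : ∃ P1, P1 = (Ioc w z).filter Nat.Prime := ⟨_, rfl⟩
  obtain ⟨P2, hP2⟩ : ∃ P2, P2 = pr N ε₁ ups := ⟨_, rfl⟩
  have hp1 : ∀ p ∈ P1, p.Prime ∧ w < p ∧ p ≤ z := by
    intro p hp
    rw [hP1, mem_filter, mem_Ioc] at hp
    exact ⟨hp.2, hp.1⟩
  have hp2 : ∀ p ∈ P2, p.Prime ∧ w < p ∧ z < p := by
    intro p hp
    rw [hP2] at hp
    obtain ⟨h1, h2, _⟩ := pr_mem N p ε₁ ups (by omega) hp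
    refine ⟨h1, ?_, ?_⟩
    · exact_mod_cast hwε.trans_le h2
    · exact_mod_cast hzlt.trans_le h2
  have hd : Disjoint P1 P2 := by
    rw [Finset.disjoint_left]
    intro p h1 h2
    have := (hp1 p h1).2.2
    have := (hp2 p h2).2.2
    omega
  obtain ⟨u, hu⟩ : ∃ u : ℕ → ℝ, u = fun p => (rho (TG ca cb cc h W) p : ℝ) / p := ⟨_, rfl⟩
  have hu0 : ∀ p, 0 ≤ u p := fun p => by rw [hu]; positivity
  have hmer2 : Mer P2 (tt N) u ε₁ ups (min η 1) := by
    intro a b h1 h2 h3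
    have h4 := hmer N hNN1 a b h1 h2 h3
    rw [← hP2] at h4
    have e : ∑ p ∈ P2.filter (fun p => a ≤ tt N p ∧ tt N p < b), u p =
        ∑ p ∈ P2.filter (fun p => a ≤ tt N p ∧ tt N p < b), (ro (QF (-(cb ^ 2 - 4 * ca * cc))) 0 p : ℝ) / p := by
      apply sum_congr rfl
      intro p hp
      have h5 := hp2 p (mem_filter.1 hp).1
      rw [hu]
      simp only
      have hnW : ¬ p ∣ W := fun h' => by
        have := (hWp p h5.1).1 h'
        omega
      rw [rho_eq' ca cb cc h W p h5.1 hnW (haW p h5.1 hnW)]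
    rw [e]
    exact h4
  have hmerη : Mer P2 (tt N) u ε₁ ups η := by
    intro a b h1 h2 h3
    exact (hmer2 a b h1 h2 h3).trans (min_le_left _ _)
  rw [← hP2] at l2 l3 l4
  have hmain := (l4 u (fun p _ => hu0 p) hmerη).1
  have hSum : ∑ p ∈ P2, u p ≤ S := by
    have h1 := hmer2 ε₁ ups le_rfl (by rw [huv]; linarith) le_rfl
    have h2 : P2.filter (fun p => ε₁ ≤ tt N p ∧ tt N p < ups) = P2 := by
      apply filter_true_of_mem
      intro p hp
      rw [hP2] at hp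
      unfold pr at hp
      rw [mem_filter] at hp
      exact hp.2.2
    rw [h2] at h1
    have h3 := (abs_le.1 h1).2
    have h4 := min_le_right η 1
    rw [hS]
    linarith
  obtain ⟨b1, b2, b3⟩ := c0_bounds P1 P2 hd (fun p hp => (hp2 p hp).1) cK cL c2 u (fun p _ => hu0 p)
    C (E * (1 / 4) ^ B) K S f ((N : ℝ) ^ (1 / 80 : ℝ)) ((N : ℝ) ^ (39 / 40 : ℝ)) hC1 hK0 k1 (by positivity) k3
    (by rw [hP1]; exact k4) (by rw [hP1]; exact k5) (by
      intro q hq hne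
      have h1 := k6 q (by rw [← hP1]; exact hq) hne
      have h2 : ((Pr q : ℕ) : ℝ) ≤ (z : ℝ) ^ (4 * B + 6) := by exact_mod_cast h1
      refine h2.trans ?_
      calc (z : ℝ) ^ (4 * B + 6) ≤ ((N : ℝ) ^ ε₁) ^ (4 * B + 6) :=
            pow_le_pow_left₀ (Nat.cast_nonneg _) hzlt.le _
        _ = (N : ℝ) ^ (1 / 80 : ℝ) := by
            rw [← Real.rpow_natCast, ← Real.rpow_mul hN0.le]
            congr 1
            push_cast
            exact hεB)
    (fun T => by rw [hK]; exact (l1 T).2) (by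
      intro q hq hne
      have h1 := l2 q hq (Or.inr hne)
      rw [htv] at h1
      exact h1) hSum (by rw [hf]; exact hmain) (by rw [hf, hS]; exact hpar)
  obtain ⟨G, hG⟩ : ∃ G : ℝ, G = cK ∅ * (f / 2) := ⟨_, rfl⟩
  have hG0 : 0 < G := by rw [hG]; positivity
  obtain ⟨D, hD⟩ : ∃ D : ℕ, D = ⌊(N : ℝ) ^ (79 / 80 : ℝ)⌋₊ := ⟨_, rfl⟩
  have hDle : (D : ℝ) ≤ (N : ℝ) ^ (79 / 80 : ℝ) := by rw [hD]; exact Nat.floor_le (by positivity)
  have hD1 : 1 ≤ D := by
    rw [hD]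
    apply Nat.le_floor
    rw [Nat.cast_one]
    exact Real.one_le_rpow hN1r (by norm_num)
  have hbig : 24 * (Nat.log 2 D + 1) * (D : ℝ) ^ (2 - σ) ≤ ((N / W + 1 : ℕ) : ℝ) * (w : ℝ) ^ (-σ) :=
    big_moduli N W w D σ hN3' hlog hD1 hDle (by omega) hW0 hw2000 hW2000 hσ hσ1
  -- the sets of quotients
  have hinj : ∀ A : Finset ℕ, (∀ a ∈ A, a % W = r) → Set.InjOn (fun a => a / W + 1) (A : Set ℕ) := by
    intro A hA a ha b hb hab
    simp only [Nat.add_right_cancel_iff] at hab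
    have e1 := Nat.div_add_mod a W
    have e2 := Nat.div_add_mod b W
    rw [hA a ha] at e1
    rw [hA b hb] at e2
    rw [← e1, ← e2, hab]
  have himg : ∀ A : Finset ℕ, A ⊆ Icc 1 N → A.image (fun a => a / W + 1) ⊆ Icc 1 (N / W + 1) := by
    intro A hA x hx
    rw [mem_image] at hx
    obtain ⟨a, ha, rfl⟩ := hx
    rw [mem_Icc]
    exact ⟨Nat.le_add_left 1 _, Nat.add_le_add_right (Nat.div_le_div_right (mem_Icc.1 (hA ha)).2) 1⟩
  obtain ⟨B₁, hB₁⟩ : ∃ B₁, B₁ = A₁.image (fun a => a / W + 1) := ⟨_, rfl⟩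
  obtain ⟨B₂, hB₂⟩ : ∃ B₂, B₂ = A₂.image (fun a => a / W + 1) := ⟨_, rfl⟩
  have hB₁c : B₁.card = A₁.card := by rw [hB₁]; exact card_image_of_injOn (hinj A₁ hm₁)
  have hB₂c : B₂.card = A₂.card := by rw [hB₂]; exact card_image_of_injOn (hinj A₂ hm₂)
  have hB₁M : B₁ ⊆ Icc 1 (N / W + 1) := by rw [hB₁]; exact himg A₁ hA₁
  have hB₂M : B₂ ⊆ Icc 1 (N / W + 1) := by rw [hB₂]; exact himg A₂ hA₂
  have hwr : (0 : ℝ) < w := by exact_mod_cast (by omega : 0 < w)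
  have hpair := pairs_low3 (P1 ∪ P2) (by
      intro p hp
      rcases mem_union.1 hp with h' | h'
      · exact (hp1 p h').1
      · exact (hp2 p h').1) (TG ca cb cc h W) (TG_per ca cb cc h W) (c0 P1 P2 cK cL c2 u) G C R hG0 (by linarith) hR0.le
    (by rw [hG]; exact b1) (by
      intro q hq
      refine (b2 q hq).trans (le_of_eq ?_)
      rw [hR, hG]
      field_simp) B₁ B₂ (N / W + 1) D w hB₁M hB₂M (by rw [hB₁c, hB₂c, hAc]) (by omega) hD1 (by
      intro q hq hne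
      rw [hD]
      apply Nat.le_floor
      refine (b3 q hq hne).trans (le_of_eq ?_)
      rw [← Real.rpow_add hN0]
      norm_num) (by
      intro p hp
      rcases mem_union.1 hp with h | h
      · exact (hp1 p h).2.1.le
      · exact (hp2 p h).2.1.le) σ (by linarith) hσ1 (by
      intro p hp
      have hpp : p.Prime ∧ w < p := by
        rcases mem_union.1 hp with h | h
        · exact ⟨(hp1 p h).1, (hp1 p h).2.1⟩
        · exact ⟨(hp2 p h).1, (hp2 p h).2.1⟩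
      have hp0 : (0 : ℝ) < p := by exact_mod_cast hpp.1.pos
      have h2 : (rho (TG ca cb cc h W) p : ℝ) ≤ 2 := by
        exact_mod_cast rho_le_two' ca cb cc h W p hpp.1 (hhW p hpp.1) (haW p hpp.1)
      have h3 : (w : ℝ) ^ (1 - σ) ≤ (p : ℝ) ^ (1 - σ) :=
        Real.rpow_le_rpow hwr.le (by exact_mod_cast hpp.2.le) (by linarith)
      have h4 : (p : ℝ) ^ (1 - σ) = p * (p : ℝ) ^ (-σ) := by
        rw [sub_eq_add_neg, Real.rpow_add hp0, Real.rpow_one]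
      rw [← mul_div_assoc, div_le_iff₀ hp0]
      calc C * (rho (TG ca cb cc h W) p : ℝ) ≤ C * 2 := mul_le_mul_of_nonneg_left h2 (by linarith)
        _ ≤ (w : ℝ) ^ (1 - σ) := by linarith
        _ ≤ _ := h3.trans (by rw [h4, mul_comm]))
  -- the upper bound for the weighted sum
  have hub : ∑ x ∈ B₁, ∑ y ∈ B₂, ∑ q ∈ (P1 ∪ P2).powerset, c0 P1 P2 cK cL c2 u q *
        ∏ p ∈ q, ((if TG ca cb cc h W p ((y : ℤ) - x) then (1 : ℝ) else 0) - (rho (TG ca cb cc h W) p : ℝ) / p) ≤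
      (((B₁ ×ˢ B₂).filter (fun x => 0 < WW N zet ups lam (lam / ups)
        (qf ca cb cc (h + (W : ℤ) * ((x.2 : ℤ) - x.1))).natAbs)).card : ℝ) := by
    rw [card_filter, sum_product]
    push_cast
    apply sum_le_sum
    intro x _
    apply sum_le_sum
    intro y _
    have h1 := c0_point P1 P2 hd cK cL c2 u (fun p => if TG ca cb cc h W p ((y : ℤ) - x) then (1 : ℝ) else 0)
      (fun p _ => by
        show (0 : ℝ) ≤ if TG ca cb cc h W p ((y : ℤ) - x) then (1 : ℝ) else 0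
        split_ifs <;> norm_num) (if Sft (TG ca cb cc h W) w z ((y : ℤ) - x) then (1 : ℝ) else 0)
      (by
        have h2 := (k7 ((y : ℤ) - x)).1
        rw [hP1, hu]
        exact h2)
      (by
        have h2 := (k7 ((y : ℤ) - x)).2
        rw [hP1, hu]
        exact h2)
    have h3 := point' N (by omega) ε₁ w z W hz (fun p hp hpw => (hWp p hp).2 hpw) ca cb cc h hh c2
      (fun M => by
        have h4 := (l3 M).1
        rw [hP2] at h4
        exact h4) ((y : ℤ) - x)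
    rw [hu] at h1
    rw [← hP2] at h3
    rw [hu]
    exact h1.trans h3
  have h2 : ((B₁ ×ˢ B₂).filter (fun x => 0 < WW N zet ups lam (lam / ups)
        (qf ca cb cc (h + (W : ℤ) * ((x.2 : ℤ) - x.1))).natAbs)).card ≤
      ((A₁ ×ˢ A₂).filter (fun x => 0 < WW N zet ups lam (lam / ups)
        (qf ca cb cc (h + ((x.2 : ℤ) - x.1))).natAbs)).card := by
    apply card_le_card_of_injOn (fun a => (W * (a.1 - 1) + r, W * (a.2 - 1) + r))
    · rintro ⟨x, y⟩ hxy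
      simp only [coe_filter, Set.mem_setOf_eq, mem_product] at hxy ⊢
      obtain ⟨⟨hx, hy⟩, hs⟩ := hxy
      rw [hB₁, mem_image] at hx
      rw [hB₂, mem_image] at hy
      obtain ⟨a, ha, rfl⟩ := hx
      obtain ⟨b, hb, rfl⟩ := hy
      have e1 := Nat.div_add_mod a W
      have e2 := Nat.div_add_mod b W
      rw [hm₁ a ha] at e1
      rw [hm₂ b hb] at e2
      simp only [Nat.add_sub_cancel]
      rw [e1, e2]
      refine ⟨⟨ha, hb⟩, ?_⟩
      have hdiff : (b : ℤ) - a = (W : ℤ) * (((b / W + 1 : ℕ) : ℤ) - ((a / W + 1 : ℕ) : ℤ)) := by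
        have e1' : (W : ℤ) * ((a / W : ℕ) : ℤ) + r = a := by exact_mod_cast e1
        have e2' : (W : ℤ) * ((b / W : ℕ) : ℤ) + r = b := by exact_mod_cast e2
        rw [Nat.cast_add, Nat.cast_add, Nat.cast_one]
        linear_combination e1' - e2'
      rw [hdiff]
      exact hs
    · rintro ⟨x, y⟩ hxy ⟨x', y'⟩ hxy' h
      simp only [coe_filter, Set.mem_setOf_eq, mem_product] at hxy hxy'
      simp only [Prod.mk.injEq, Nat.add_right_cancel_iff, Nat.mul_right_inj hW0.ne'] at h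
      have q1 := (mem_Icc.1 (hB₁M hxy.1.1)).1
      have q2 := (mem_Icc.1 (hB₂M hxy.1.2)).1
      have q3 := (mem_Icc.1 (hB₁M hxy'.1.1)).1
      have q4 := (mem_Icc.1 (hB₂M hxy'.1.2)).1
      simp only [Prod.mk.injEq]
      omega
  obtain ⟨m, hm⟩ : ∃ m : ℝ, m = (A₁.card : ℝ) := ⟨_, rfl⟩
  rw [hB₁c] at hpair
  rw [← hm] at hpair ⊢
  have hm0 : 0 ≤ m := by rw [hm]; positivity
  obtain ⟨M, hM⟩ : ∃ M : ℝ, M = ((N / W + 1 : ℕ) : ℝ) := ⟨_, rfl⟩
  rw [← hM] at hpair hbig ⊢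
  have hX : R * (42 * M * (w : ℝ) ^ (-σ) + 24 * (Nat.log 2 D + 1) * (D : ℝ) ^ (2 - σ)) ≤
      R * 43 * M * (w : ℝ) ^ (-σ) := by
    calc R * (42 * M * (w : ℝ) ^ (-σ) + 24 * (Nat.log 2 D + 1) * (D : ℝ) ^ (2 - σ)) ≤
        R * (42 * M * (w : ℝ) ^ (-σ) + M * (w : ℝ) ^ (-σ)) := by
          apply mul_le_mul_of_nonneg_left _ hR0.le
          linarith
      _ = _ := by ring
  have hGlow : cl * (f / 2) / Real.log N ≤ G := by
    rw [hG]
    have h3 := (hlow h W w z N hhW haW hN3' hzN).trans k2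
    calc cl * (f / 2) / Real.log N = cl / Real.log N * (f / 2) := by ring
      _ ≤ _ := mul_le_mul_of_nonneg_right h3 (by positivity)
  rcases le_or_gt 0 (m - R * 43 * M * (w : ℝ) ^ (-σ)) with hpos | hneg
  · calc cl * (f / 2) / Real.log N * (m * (m - R * 43 * M * (w : ℝ) ^ (-σ)))
        ≤ G * (m * (m - R * 43 * M * (w : ℝ) ^ (-σ))) :=
          mul_le_mul_of_nonneg_right hGlow (mul_nonneg hm0 hpos)
      _ ≤ G * m * (m - R * (42 * M * (w : ℝ) ^ (-σ) + 24 * (Nat.log 2 D + 1) * (D : ℝ) ^ (2 - σ))) := by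
          rw [mul_assoc G m]
          apply mul_le_mul_of_nonneg_left _ hG0.le
          apply mul_le_mul_of_nonneg_left _ hm0
          linarith
      _ ≤ _ := hpair
      _ ≤ _ := hub
      _ ≤ _ := by exact_mod_cast h2
  · calc cl * (f / 2) / Real.log N * (m * (m - R * 43 * M * (w : ℝ) ^ (-σ))) ≤ 0 := by
          apply mul_nonpos_of_nonneg_of_nonpos (by positivity)
          exact mul_nonpos_of_nonneg_of_nonpos hm0 hneg.le
      _ ≤ _ := Nat.cast_nonneg _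

end Pool.Agent.H14.P3Q
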