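import Pool.Agent.H14.P3.Fin
import Pool.Agent.H14.P3Q.Cls

/-!
# From residue classes to the whole set, and the exceptional pairs (helper14)
-/

set_option autoImplicit false
set_option linter.unusedSectionVars false
set_option linter.deprecated false

namespace Pool.Agent.H14.P3Q

open Finset Pool.Agent.H14.SK Pool.Agent.H14.P3 Pool.Agent.Y882.SI Pool.Agent.Y882.PX Pool.Agent.Y882.KW Filter
open Pool.Agent.W23.DC Pool.Agent.Y882

open Classical in
/-- from the residue classes to the whole set, pairs in increasing order -/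
lemma total3 (N W : ℕ) (hW0 : 0 < W) (hWN : W ≤ N) (A : Finset ℕ) (hA : A ⊆ Icc 1 N) (α : ℝ)
    (hα : 0 < α) (hcard : α * N ≤ A.card) (hWα : 2 * (W : ℝ) ≤ α * N) (G C₅ s : ℝ) (hG : 0 ≤ G) (hC₅ : 0 < C₅)
    (hs2 : s ≤ α / (16 * C₅)) (P : ℕ × ℕ → Prop)
    (hcls : ∀ A₁ A₂ : Finset ℕ, A₁ ⊆ Icc 1 N → A₂ ⊆ Icc 1 N → A₂.card = A₁.card → ∀ r : ℕ,
      (∀ x ∈ A₁, x % W = r) → (∀ x ∈ A₂, x % W = r) →
      G * (A₁.card * (A₁.card - C₅ * ((N / W + 1 : ℕ) : ℝ) * s)) ≤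
      (((A₁ ×ˢ A₂).filter P).card : ℝ)) :
    G * (α ^ 2 * N ^ 2 / (32 * W)) ≤ (((A ×ˢ A).filter (fun x => x.1 < x.2 ∧ P x)).card : ℝ) := by
  have hW0r : (0 : ℝ) < W := by exact_mod_cast hW0
  have hN0 : (0 : ℝ) < N := by exact_mod_cast (by omega : 0 < N)
  choose H1 hH1 H2 hH2 hH3 hH4 hH5 using fun r : ℕ => exists_halves (Ac A W r)
  obtain ⟨nr, hnr⟩ : ∃ nr : ℕ → ℝ, nr = fun r => ((H1 r).card : ℝ) := ⟨_, rfl⟩
  have hnr0 : ∀ r, 0 ≤ nr r := fun r => by rw [hnr]; positivity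
  have hmemr : ∀ r, ∀ x ∈ Ac A W r, x ∈ A ∧ x % W = r := by
    intro r x hx
    unfold Ac at hx
    exact mem_filter.1 hx
  obtain ⟨Tn, hT⟩ : ∃ t : ℝ, t = ∑ r ∈ range W, nr r := ⟨_, rfl⟩
  have hTlow : α * N / 4 ≤ Tn := by
    have h1 : ∀ r ∈ range W, (((Ac A W r).card : ℝ) - 1) / 2 ≤ nr r := by
      intro r _
      rw [hnr]
      simp only
      rw [hH3 r]
      have h2 : (Ac A W r).card ≤ 2 * ((Ac A W r).card / 2) + 1 := by omega
      have h3 : ((Ac A W r).card : ℝ) ≤ 2 * (((Ac A W r).card / 2 : ℕ) : ℝ) + 1 := by exact_mod_cast h2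
      linarith
    have h4 := sum_le_sum h1
    rw [← hT, ← sum_div, sum_sub_distrib, sum_const, card_range, nsmul_eq_mul, mul_one,
      ← Nat.cast_sum, sum_Ac A W hW0] at h4
    linarith
  have hT0 : 0 < Tn := lt_of_lt_of_le (by positivity) hTlow
  have hsq : Tn ^ 2 ≤ W * ∑ r ∈ range W, nr r ^ 2 := by
    have h1 := sq_sum_le_card_mul_sum_sq (s := range W) (f := nr)
    rw [← hT, card_range] at h1
    exact h1
  have hsm : C₅ * ((N / W + 1 : ℕ) : ℝ) * s ≤ Tn / (2 * W) := by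
    have h1 := hMle N W hW0 hWN
    have h3 : (0 : ℝ) ≤ ((N / W + 1 : ℕ) : ℝ) := Nat.cast_nonneg _
    calc C₅ * ((N / W + 1 : ℕ) : ℝ) * s ≤ C₅ * ((N / W + 1 : ℕ) : ℝ) * (α / (16 * C₅)) :=
          mul_le_mul_of_nonneg_left hs2 (by positivity)
      _ ≤ C₅ * (2 * (N / W)) * (α / (16 * C₅)) := by gcongr
      _ = (α * N / 4) / (2 * W) := by field_simp; norm_num
      _ ≤ _ := div_le_div_of_nonneg_right hTlow (by positivity)
  have htot : ∑ r ∈ range W, (((H1 r ×ˢ H2 r).filter P).card : ℝ) ≤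
      (((A ×ˢ A).filter (fun x => x.1 < x.2 ∧ P x)).card : ℝ) := by
    rw [← Nat.cast_sum, Nat.cast_le, ← card_biUnion]
    · apply card_le_card
      intro x hx
      rw [mem_biUnion] at hx
      obtain ⟨r, _, hx⟩ := hx
      rw [mem_filter, mem_product] at hx ⊢
      exact ⟨⟨(hmemr r _ (hH1 r hx.1.1)).1, (hmemr r _ (hH2 r hx.1.2)).1⟩, hH5 r _ hx.1.1 _ hx.1.2, hx.2⟩
    · intro r _ r' _ hrr
      show Disjoint _ _
      rw [Finset.disjoint_left]
      intro x hx hx'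
      rw [mem_filter, mem_product] at hx hx'
      exact hrr ((hmemr r _ (hH1 r hx.1.1)).2.symm.trans (hmemr r' _ (hH1 r' hx'.1.1)).2)
  have hcls' : ∀ r ∈ range W, G * (nr r * (nr r - C₅ * ((N / W + 1 : ℕ) : ℝ) * s)) ≤
      (((H1 r ×ˢ H2 r).filter P).card : ℝ) := by
    intro r _
    rw [hnr]
    exact hcls (H1 r) (H2 r) (fun x hx => hA (hmemr r x (hH1 r hx)).1)
      (fun x hx => hA (hmemr r x (hH2 r hx)).1) (hH4 r) r (fun x hx => (hmemr r x (hH1 r hx)).2)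
      (fun x hx => (hmemr r x (hH2 r hx)).2)
  refine le_trans ?_ ((sum_le_sum hcls').trans htot)
  have hstep : ∀ r ∈ range W, G * (nr r ^ 2 - Tn / (2 * W) * nr r) ≤
      G * (nr r * (nr r - C₅ * ((N / W + 1 : ℕ) : ℝ) * s)) := by
    intro r _
    apply mul_le_mul_of_nonneg_left _ hG
    have h5 := mul_le_mul_of_nonneg_right hsm (hnr0 r)
    nlinarith
  refine le_trans ?_ (sum_le_sum hstep)
  rw [← mul_sum, sum_sub_distrib, ← mul_sum, ← hT]
  apply mul_le_mul_of_nonneg_left _ hG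
  have h6 : Tn ^ 2 / W ≤ ∑ r ∈ range W, nr r ^ 2 := by
    rw [div_le_iff₀ hW0r]
    linarith
  have h7 : (α * N / 4) ^ 2 ≤ Tn ^ 2 := pow_le_pow_left₀ (by positivity) hTlow 2
  calc α ^ 2 * N ^ 2 / (32 * W) = (α * N / 4) ^ 2 / (2 * W) := by
        field_simp
        norm_num
    _ ≤ Tn ^ 2 / (2 * W) := div_le_div_of_nonneg_right h7 (by positivity)
    _ = Tn ^ 2 / W - Tn / (2 * W) * Tn := by
        field_simp
        ring
    _ ≤ _ := by linarith

open Classical in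
/-- one row -/
lemma bad_row' (a b c : ℤ) (ha : a ≠ 0) (hD : ¬ IsSquare (b ^ 2 - 4 * a * c)) (N : ℕ) (hN2 : 2 ≤ N)
    (hDN : ∀ q ∈ pr N zet ups, (b ^ 2 - 4 * a * c).natAbs < q)
    (h : ℤ) (hh : |h| ≤ N) (A : Finset ℕ)
    (hA : A ⊆ Icc 1 N) (S : Finset ℕ)
    (hS : ∀ n : ℕ, 1 ≤ n → n ≤ (4 * a.natAbs + b.natAbs) * N → Bad (-(b ^ 2 - 4 * a * c)) N zet ups n → n ∈ S)
    (x : ℕ) (hx : x ∈ A) :
    (A.filter (fun y : ℕ => BadV N (qf a b c (h + ((y : ℤ) - x))).natAbs)).card ≤ 2 * S.card := by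
  have hxN := mem_Icc.1 (hA hx)
  have hD0 : b ^ 2 - 4 * a * c ≠ 0 := by
    intro h0
    apply hD
    rw [h0]
    exact ⟨0, by norm_num⟩
  have hsub : A.filter (fun y : ℕ => BadV N (qf a b c (h + ((y : ℤ) - x))).natAbs) ⊆
      A.filter (fun y : ℕ => 0 < 2 * a * (h + ((y : ℤ) - x)) + b ∧ (2 * a * (h + ((y : ℤ) - x)) + b).natAbs ∈ S) ∪
      A.filter (fun y : ℕ => 2 * a * (h + ((y : ℤ) - x)) + b < 0 ∧ (2 * a * (h + ((y : ℤ) - x)) + b).natAbs ∈ S) := by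
    intro y hy'
    rw [mem_filter] at hy'
    obtain ⟨hyA, hbad⟩ := hy'
    have hyN := mem_Icc.1 (hA hyA)
    obtain ⟨n, hn⟩ : ∃ n : ℤ, n = h + ((y : ℤ) - x) := ⟨_, rfl⟩
    rw [← hn] at hbad
    obtain ⟨q, hq, hqd⟩ := hbad
    have hqd' : ((q ^ 2 : ℕ) : ℤ) ∣ (2 * a * n + b) ^ 2 + (-(b ^ 2 - 4 * a * c)) := by
      rw [← four_qf]
      exact (Int.natCast_dvd.2 hqd).mul_left _
    obtain ⟨m, hm⟩ : ∃ m : ℤ, m = 2 * a * n + b := ⟨_, rfl⟩
    rw [← hm] at hqd'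
    have hqd2 : ((q ^ 2 : ℕ) : ℤ) ∣ ((m.natAbs : ℕ) : ℤ) ^ 2 + (-(b ^ 2 - 4 * a * c)) := by
      rw [Int.natCast_natAbs, sq_abs]
      exact hqd'
    have hm0 : m ≠ 0 := by
      intro h0
      rw [h0] at hqd'
      have h1 : q ^ 2 ∣ (b ^ 2 - 4 * a * c).natAbs := by
        have h2 := Int.natCast_dvd.1 hqd'
        have e : ((0 : ℤ) ^ 2 + (-(b ^ 2 - 4 * a * c))).natAbs = (b ^ 2 - 4 * a * c).natAbs := by
          rw [zero_pow (by norm_num), zero_add, Int.natAbs_neg]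
        rwa [e] at h2
      have h2 := Nat.le_of_dvd (Int.natAbs_pos.2 hD0) h1
      have h3 := hDN q hq
      have h4 : 1 ≤ q := by omega
      nlinarith
    have hmabs : m.natAbs ∈ S := by
      apply hS _ _ _ ⟨q, hq, hqd2⟩
      · have := Int.natAbs_pos.2 hm0
        omega
      · have hh' := abs_le.1 hh
        have hn2 : n.natAbs ≤ 2 * N := by omega
        have hN1 : 1 ≤ N := by omega
        calc m.natAbs ≤ (2 * a * n).natAbs + b.natAbs := by rw [hm]; exact Int.natAbs_add_le _ _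
          _ = 2 * a.natAbs * n.natAbs + b.natAbs := by
              rw [Int.natAbs_mul, Int.natAbs_mul]
              rfl
          _ ≤ 2 * a.natAbs * (2 * N) + b.natAbs * N := by
              apply Nat.add_le_add (Nat.mul_le_mul_left _ hn2)
              exact Nat.le_mul_of_pos_right _ hN1
          _ = _ := by ring
    rw [mem_union, mem_filter, mem_filter, ← hn, ← hm]
    rcases lt_or_gt_of_ne hm0 with h5 | h5
    · right; exact ⟨hyA, h5, hmabs⟩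
    · left; exact ⟨hyA, h5, hmabs⟩
  have hinj : ∀ y y' : ℕ, 2 * a * (h + ((y : ℤ) - x)) + b = 2 * a * (h + ((y' : ℤ) - x)) + b → y = y' := by
    intro y y' he
    have h1 : 2 * a * ((y : ℤ) - y') = 0 := by linear_combination he
    rcases mul_eq_zero.1 h1 with h2 | h2
    · exact absurd h2 (mul_ne_zero (by norm_num) ha)
    · omega
  have hc1 : (A.filter (fun y : ℕ => 0 < 2 * a * (h + ((y : ℤ) - x)) + b ∧ (2 * a * (h + ((y : ℤ) - x)) + b).natAbs ∈ S)).card ≤ S.card := by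
    apply card_le_card_of_injOn (fun y : ℕ => (2 * a * (h + ((y : ℤ) - x)) + b).natAbs)
    · intro y hy'
      simp only [coe_filter, Set.mem_setOf_eq] at hy'
      exact hy'.2.2
    · intro y hy' y' hy'' he
      simp only [coe_filter, Set.mem_setOf_eq] at hy' hy''
      have he' : (2 * a * (h + ((y : ℤ) - x)) + b).natAbs = (2 * a * (h + ((y' : ℤ) - x)) + b).natAbs := he
      have k1 := hy'.2.1
      have k2 := hy''.2.1
      apply hinj
      omega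
  have hc2 : (A.filter (fun y : ℕ => 2 * a * (h + ((y : ℤ) - x)) + b < 0 ∧ (2 * a * (h + ((y : ℤ) - x)) + b).natAbs ∈ S)).card ≤ S.card := by
    apply card_le_card_of_injOn (fun y : ℕ => (2 * a * (h + ((y : ℤ) - x)) + b).natAbs)
    · intro y hy'
      simp only [coe_filter, Set.mem_setOf_eq] at hy'
      exact hy'.2.2
    · intro y hy' y' hy'' he
      simp only [coe_filter, Set.mem_setOf_eq] at hy' hy''
      have he' : (2 * a * (h + ((y : ℤ) - x)) + b).natAbs = (2 * a * (h + ((y' : ℤ) - x)) + b).natAbs := he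
      have k1 := hy'.2.1
      have k2 := hy''.2.1
      apply hinj
      omega
  have h9 := (card_le_card hsub).trans (card_union_le _ _)
  omega

open Classical in
/-- the pairs at which the value is divisible by the square of a prime in the weighted range -/
lemma bad_pairs' (a b c : ℤ) (hD : ¬ IsSquare (b ^ 2 - 4 * a * c)) : ∃ (K : ℝ) (N₀ : ℕ), 0 < K ∧
    ∀ N : ℕ, N₀ ≤ N → ∀ h : ℤ, |h| ≤ N → ∀ A : Finset ℕ, A ⊆ Icc 1 N →
    (((A ×ˢ A).filter (fun x => BadV N (qf a b c (h + ((x.2 : ℤ) - x.1))).natAbs)).card : ℝ) ≤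
      K * N * (N : ℝ) ^ (9 / 10 : ℝ) := by
  have ha : a ≠ 0 := by
    intro h0
    apply hD
    rw [h0]
    exact ⟨b, by ring⟩
  have hD0 : b ^ 2 - 4 * a * c ≠ 0 := by
    intro h0
    apply hD
    rw [h0]
    exact ⟨0, by norm_num⟩
  have hzv := zet_val
  have huv := ups_val
  obtain ⟨Y0, hY0⟩ := bad_count (-(b ^ 2 - 4 * a * c)) (neg_ne_zero.2 hD0) zet ups (by rw [hzv]; norm_num)
    (by rw [hzv, huv]; norm_num) (by rw [huv]; norm_num)
  obtain ⟨κ, hκ⟩ : ∃ κ : ℕ, κ = 4 * a.natAbs + b.natAbs := ⟨_, rfl⟩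
  have ev : ∀ᶠ N : ℕ in atTop, ((b ^ 2 - 4 * a * c).natAbs : ℝ) + 1 ≤ (N : ℝ) ^ zet :=
    ((tendsto_rpow_atTop (by rw [hzv]; norm_num)).comp tendsto_natCast_atTop_atTop).eventually_ge_atTop _
  obtain ⟨Y1, hY1⟩ := eventually_atTop.1 ev
  refine ⟨2 * (4 * κ + 2), max (max Y0 Y1) 2, by positivity, fun N hN h hh A hA => ?_⟩
  have hN2 : 2 ≤ N := (le_max_right _ _).trans hN
  have hN0 : (0 : ℝ) < N := by exact_mod_cast (by omega : 0 < N)
  have hN1 : (1 : ℝ) ≤ N := by exact_mod_cast (by omega : 1 ≤ N)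
  have hb := hY0 N (((le_max_left _ _).trans (le_max_left _ _)).trans hN) (κ * N)
  have hDN : ∀ q ∈ pr N zet ups, (b ^ 2 - 4 * a * c).natAbs < q := by
    intro q hq
    have h1 := (pr_mem N q zet ups hN2 hq).2.1
    have h2 := (hY1 N (((le_max_right _ _).trans (le_max_left _ _)).trans hN)).trans h1
    exact_mod_cast h2
  obtain ⟨S, hS⟩ : ∃ S : Finset ℕ, S = (Icc 1 (κ * N)).filter (Bad (-(b ^ 2 - 4 * a * c)) N zet ups) := ⟨_, rfl⟩
  rw [← hS] at hb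
  have hbS : (S.card : ℝ) ≤ (4 * κ + 2) * (N : ℝ) ^ (9 / 10 : ℝ) := by
    refine hb.trans ?_
    rw [hzv, huv]
    have e1 : ((κ * N : ℕ) : ℝ) / (N : ℝ) ^ (39 / 100 : ℝ) = κ * (N : ℝ) ^ (61 / 100 : ℝ) := by
      rw [div_eq_iff (by positivity), mul_assoc, ← Real.rpow_add hN0]
      push_cast
      norm_num
    rw [e1]
    have h1 : (N : ℝ) ^ (61 / 100 : ℝ) ≤ (N : ℝ) ^ (9 / 10 : ℝ) :=
      Real.rpow_le_rpow_of_exponent_le hN1 (by norm_num)
    have h2 : (N : ℝ) ^ (351 / 400 : ℝ) ≤ (N : ℝ) ^ (9 / 10 : ℝ) :=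
      Real.rpow_le_rpow_of_exponent_le hN1 (by norm_num)
    have h3 : (0 : ℝ) ≤ κ := Nat.cast_nonneg _
    have h4 := mul_le_mul_of_nonneg_left h1 h3
    linarith
  have hS' : ∀ n : ℕ, 1 ≤ n → n ≤ (4 * a.natAbs + b.natAbs) * N →
      Bad (-(b ^ 2 - 4 * a * c)) N zet ups n → n ∈ S := by
    intro n hn1 hn2 hbad
    rw [hS, mem_filter, mem_Icc, hκ]
    exact ⟨⟨hn1, hn2⟩, hbad⟩
  have hAN : A.card ≤ N := by
    have := card_le_card hA
    rwa [Nat.card_Icc, Nat.add_sub_cancel] at this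
  have hcnt := (rows A (fun x y : ℕ => BadV N (qf a b c (h + ((y : ℤ) - x))).natAbs) (2 * S.card)
    (fun x hx => bad_row' a b c ha hD N hN2 hDN h hh A hA S hS' x hx)).trans (Nat.mul_le_mul_right _ hAN)
  have hcnt' : (((A ×ˢ A).filter (fun x => BadV N (qf a b c (h + ((x.2 : ℤ) - x.1))).natAbs)).card : ℝ) ≤
      N * (2 * S.card) := by
    exact_mod_cast hcnt
  refine hcnt'.trans ?_
  calc (N : ℝ) * (2 * S.card) ≤ N * (2 * ((4 * κ + 2) * (N : ℝ) ^ (9 / 10 : ℝ))) := by gcongr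
    _ = _ := by ring

end Pool.Agent.H14.P3Q
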