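import Pool.Agent.H14.P3.Dense
import Pool.Agent.H14.P3Q.Fin

/-!
# Differences of dense sets at which a quadratic polynomial has at most three prime factors
(helper14)
-/

set_option autoImplicit false
set_option linter.unusedSectionVars false
set_option linter.deprecated false

namespace Pool.Agent.H14.P3Q

open Finset Pool.Agent.H14.SK Pool.Agent.H14.P3 Pool.Agent.Y882.SI Pool.Agent.Y882.PX Pool.Agent.Y882.KW Filter
open Pool.Agent.W23.DC Pool.Agent.Y882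

/-- positive weight and no square factor give an almost prime -/
lemma good_of' (a b c : ℤ) (hD : ¬ IsSquare (b ^ 2 - 4 * a * c)) (N : ℕ) (hN : 2 ≤ N)
    (h5 : ((4 * |a| + 2 * |b| + |c| : ℤ) : ℝ) ≤ (N : ℝ) ^ (1 / 10 : ℝ)) (n : ℤ) (hn : |n| ≤ 2 * N)
    (hW : 0 < WW N zet ups lam (lam / ups) (qf a b c n).natAbs)
    (hsq : ∀ q ∈ pr N zet ups, ¬ q ^ 2 ∣ (qf a b c n).natAbs) : Good3 N (qf a b c n).natAbs := by
  have hzv := zet_val
  have huv := ups_val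
  have hlv : lam = 20 / 31 := rfl
  have hN0 : (0 : ℝ) < N := by exact_mod_cast (by omega : 0 < N)
  have hN1 : (1 : ℝ) ≤ N := by exact_mod_cast (by omega : 1 ≤ N)
  have hne : (qf a b c n).natAbs ≠ 0 := by
    rw [Int.natAbs_ne_zero]
    intro h0
    apply hD
    have h1 := four_qf a b c n
    rw [h0, mul_zero] at h1
    exact ⟨2 * a * n + b, by linear_combination h1⟩
  have hle : (((qf a b c n).natAbs : ℕ) : ℝ) ≤ (N : ℝ) ^ (21 / 10 : ℝ) := by
    have hNZ : (1 : ℤ) ≤ N := by exact_mod_cast (by omega : 1 ≤ N)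
    have h1 : (((qf a b c n).natAbs : ℕ) : ℤ) ≤ (4 * |a| + 2 * |b| + |c|) * (N : ℤ) ^ 2 := by
      rw [Int.natCast_natAbs]
      have h2 : n ^ 2 ≤ (2 * (N : ℤ)) ^ 2 := by
        rw [← sq_abs n]
        exact pow_le_pow_left₀ (abs_nonneg _) hn 2
      have h3 : (1 : ℤ) ≤ (N : ℤ) ^ 2 := one_le_pow₀ hNZ
      have h4 : (N : ℤ) ≤ (N : ℤ) ^ 2 := by nlinarith
      have h6 : |qf a b c n| ≤ |a| * n ^ 2 + |b| * |n| + |c| := by
        unfold qf
        have h7 : |a * n ^ 2 + b * n + c| ≤ |a * n ^ 2 + b * n| + |c| := abs_add_le _ _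
        have h8 : |a * n ^ 2 + b * n| ≤ |a * n ^ 2| + |b * n| := abs_add_le _ _
        have h9 : |a * n ^ 2| = |a| * n ^ 2 := by rw [abs_mul, abs_of_nonneg (sq_nonneg n)]
        have h10 : |b * n| = |b| * |n| := abs_mul _ _
        linarith
      have h11 : |a| * n ^ 2 ≤ |a| * (2 * (N : ℤ)) ^ 2 := mul_le_mul_of_nonneg_left h2 (abs_nonneg _)
      have h12 : |b| * |n| ≤ |b| * (2 * (N : ℤ) ^ 2) :=
        mul_le_mul_of_nonneg_left (by linarith) (abs_nonneg _)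
      have h13 : |c| ≤ |c| * (N : ℤ) ^ 2 := le_mul_of_one_le_right (abs_nonneg _) h3
      calc |qf a b c n| ≤ |a| * (2 * (N : ℤ)) ^ 2 + |b| * (2 * (N : ℤ) ^ 2) + |c| * (N : ℤ) ^ 2 := by
            linarith
        _ = _ := by ring
    have h2 : (((qf a b c n).natAbs : ℕ) : ℝ) ≤ ((4 * |a| + 2 * |b| + |c| : ℤ) : ℝ) * (N : ℝ) ^ 2 := by
      have h3 : ((((qf a b c n).natAbs : ℕ) : ℤ) : ℝ) ≤ (((4 * |a| + 2 * |b| + |c|) * (N : ℤ) ^ 2 : ℤ) : ℝ) :=
        Int.cast_le.2 h1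
      rw [Int.cast_natCast, Int.cast_mul, Int.cast_pow, Int.cast_natCast] at h3
      exact h3
    refine h2.trans ?_
    calc ((4 * |a| + 2 * |b| + |c| : ℤ) : ℝ) * (N : ℝ) ^ 2 ≤ (N : ℝ) ^ (1 / 10 : ℝ) * (N : ℝ) ^ 2 :=
          mul_le_mul_of_nonneg_right h5 (by positivity)
      _ = (N : ℝ) ^ (21 / 10 : ℝ) := by
          rw [← Real.rpow_natCast, ← Real.rpow_add hN0]
          norm_num
  obtain ⟨h1, h2⟩ := almost N hN zet ups lam (21 / 10) 3 (by rw [hzv, huv]; norm_num) (by rw [huv]; norm_num)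
    (by rw [huv]; norm_num) (by rw [hlv]; norm_num) (by rw [hlv, huv]; norm_num) _ hne hle hW hsq
  refine ⟨?_, ?_⟩
  · intro p hp hpd
    have := h2 p hp hpd
    rwa [hzv] at this
  · rw [ArithmeticFunction.cardFactors_apply]
    exact h1

open Classical in
/-- **Shifted differences of dense sets.** -/
theorem quad3 (a b c : ℤ) (hD : ¬ IsSquare (b ^ 2 - 4 * a * c)) : ∀ ε : ℝ, 0 < ε → ∃ (C : ℝ) (N₀ : ℕ), 0 < C ∧ ∀ N : ℕ, N₀ ≤ N →
    ∀ (A : Finset ℕ) (α : ℝ), A ⊆ Icc 1 N → 0 < α → Real.log N ^ (-(1 - ε)) ≤ α → α * N ≤ A.card →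
    ∀ h : ℤ, |h| ≤ N → (∀ p : ℕ, p.Prime → (p : ℝ) ≤ C * α ^ (-(1 + ε)) → ¬ (p : ℤ) ∣ qf a b c h) →
    Real.exp (-(C * α ^ (-(1 + ε)))) * N ^ 2 / Real.log N ≤
      (((A ×ˢ A).filter (fun x => x.1 < x.2 ∧
        Good3 N (qf a b c (h + ((x.2 : ℤ) - x.1))).natAbs)).card : ℝ) := by
  obtain ⟨ε₁, C₅, C₆, c₁, N1, hε₁, hC₅, hC₆, hc₁, hcls⟩ := cls3 a b c hD
  obtain ⟨κ, N2, hκ, hbad⟩ := bad_pairs' a b c hD
  -- it is enough to treat `ε ≤ 1/200`
  suffices hs : ∀ ε : ℝ, 0 < ε → ε ≤ 1 / 200 → ∃ (C : ℝ) (N₀ : ℕ), 0 < C ∧ ∀ N : ℕ, N₀ ≤ N →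
      ∀ (A : Finset ℕ) (α : ℝ), A ⊆ Icc 1 N → 0 < α → Real.log N ^ (-(1 - ε)) ≤ α → α * N ≤ A.card →
      ∀ h : ℤ, |h| ≤ N → (∀ p : ℕ, p.Prime → (p : ℝ) ≤ C * α ^ (-(1 + ε)) → ¬ (p : ℤ) ∣ qf a b c h) →
      Real.exp (-(C * α ^ (-(1 + ε)))) * N ^ 2 / Real.log N ≤
      (((A ×ˢ A).filter (fun x => x.1 < x.2 ∧
        Good3 N (qf a b c (h + ((x.2 : ℤ) - x.1))).natAbs)).card : ℝ) by
    intro ε hε
    obtain ⟨e, he⟩ : ∃ e : ℝ, e = min ε (1 / 200) := ⟨_, rfl⟩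
    obtain ⟨C', N₀, hC', h1⟩ := hs e (by rw [he]; exact lt_min hε (by norm_num))
      (by rw [he]; exact min_le_right _ _)
    refine ⟨C', max N₀ 3, hC', ?_⟩
    intro N hN A α hA hα hαL hcard h hh hhp
    have hee : e ≤ ε := by rw [he]; exact min_le_left _ _
    have hN3 : 3 ≤ N := (le_max_right _ _).trans hN
    have hN0 : (0 : ℝ) < N := by exact_mod_cast (by omega : 0 < N)
    have hL1 : 1 ≤ Real.log N := by
      have h2 : (3 : ℝ) ≤ N := by exact_mod_cast hN3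
      have h3 : Real.exp 1 ≤ N := by
        have := Real.exp_one_lt_d9
        linarith
      rw [Real.le_log_iff_exp_le (by linarith)]
      exact h3
    have hAN : (A.card : ℝ) ≤ N := by
      have := card_le_card hA
      rw [Nat.card_Icc, Nat.add_sub_cancel] at this
      exact_mod_cast this
    have hα1 : α ≤ 1 := by
      have := hcard.trans hAN
      by_contra hcon
      push Not at hcon
      nlinarith
    have h4 : Real.log N ^ (-(1 - e)) ≤ α :=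
      le_trans (Real.rpow_le_rpow_of_exponent_le hL1 (by linarith)) hαL
    have h7 : α ^ (-(1 + e)) ≤ α ^ (-(1 + ε)) :=
      Real.rpow_le_rpow_of_exponent_ge hα hα1 (by linarith)
    have h8 : C' * α ^ (-(1 + e)) ≤ C' * α ^ (-(1 + ε)) := mul_le_mul_of_nonneg_left h7 hC'.le
    have h6 := h1 N ((le_max_left _ _).trans hN) A α hA hα h4 hcard h hh
      (fun p hp hpC => hhp p hp (hpC.trans h8))
    refine le_trans ?_ h6
    have h9 : Real.exp (-(C' * α ^ (-(1 + ε)))) ≤ Real.exp (-(C' * α ^ (-(1 + e)))) := by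
      apply Real.exp_le_exp.2
      linarith
    gcongr
  intro ε hε hε1
  obtain ⟨K, hK1, hKw⟩ := choose_w' (max 4 (2 * a).natAbs) C₆ (max 1 (16 * C₅)) ε (le_max_left _ _) hε
  obtain ⟨C₀, hC₀⟩ : ∃ C₀ : ℝ, C₀ = max 0 (Real.log (64 / c₁)) := ⟨_, rfl⟩
  have hC₀0 : 0 ≤ C₀ := by rw [hC₀]; exact le_max_left _ _
  have hC₀1 : Real.exp (-C₀) ≤ c₁ / 64 := by
    have h1 : Real.log (64 / c₁) ≤ C₀ := by rw [hC₀]; exact le_max_right _ _
    calc Real.exp (-C₀) ≤ Real.exp (-Real.log (64 / c₁)) := Real.exp_le_exp.2 (by linarith)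
      _ = c₁ / 64 := by
          rw [Real.exp_neg, Real.exp_log (by positivity), inv_div]
  have t1 : Tendsto (fun N : ℕ => (Real.log N) ^ (ε ^ 2)) atTop atTop :=
    (tendsto_rpow_atTop (by positivity)).comp tendsto_log_nat
  have t2 : ∀ s : ℝ, 0 < s → ∀ᶠ N : ℕ in atTop, Real.log N < (N : ℝ) ^ s := by
    intro s hs
    have h1 := (isLittleO_log_rpow_atTop hs).bound (show (0 : ℝ) < 1 / 2 by norm_num)
    filter_upwards [tendsto_natCast_atTop_atTop.eventually h1, eventually_ge_atTop 1] with N hN hN1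
    have hN1r : (1 : ℝ) ≤ N := by exact_mod_cast hN1
    rw [Real.norm_of_nonneg (Real.log_nonneg hN1r), Real.norm_of_nonneg (by positivity)] at hN
    have : 0 < (N : ℝ) ^ s := by positivity
    linarith
  have t4 := tendsto_rpow_div_log_pow (1 / 20) (by norm_num) 3
  have t5 : Tendsto (fun N : ℕ => (N : ℝ) ^ (1 / 10 : ℝ)) atTop atTop :=
    (tendsto_rpow_atTop (by norm_num)).comp tendsto_natCast_atTop_atTop
  have hev := (((((t1.eventually_ge_atTop (8000 * K)).and (t2 ε₁ hε₁)).and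
    ((t2 (1 / 2000) (by norm_num)).and ((t5.eventually_ge_atTop 5).and
      (t5.eventually_ge_atTop ((4 * |a| + 2 * |b| + |c| : ℤ) : ℝ))))).and
    ((t4.eventually_ge_atTop (64 * κ / c₁)).and (eventually_ge_atTop 16))).and
    (tendsto_log_nat.eventually_ge_atTop 1))
  obtain ⟨N3, hN3⟩ := eventually_atTop.1 hev
  refine ⟨4 * K + 2 + C₀, max (max N1 N2) N3, by linarith, ?_⟩
  intro N hN A α hA hα hαL hcard h hh hhp
  obtain ⟨⟨⟨⟨g1, g2⟩, ⟨g3, g4, g4'⟩⟩, ⟨g5, g6⟩⟩, g7⟩ := hN3 N ((le_max_right _ _).trans hN)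
  have hNN1 : N1 ≤ N := ((le_max_left _ _).trans (le_max_left _ _)).trans hN
  have hNN2 : N2 ≤ N := ((le_max_right _ _).trans (le_max_left _ _)).trans hN
  have hN0 : (0 : ℝ) < N := by exact_mod_cast (by omega : 0 < N)
  have hN1r : (1 : ℝ) ≤ N := by exact_mod_cast (by omega : 1 ≤ N)
  have hAN : (A.card : ℝ) ≤ N := by
    have := card_le_card hA
    rw [Nat.card_Icc, Nat.add_sub_cancel] at this
    exact_mod_cast this
  have hα1 : α ≤ 1 := by
    have := hcard.trans hAN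
    by_contra hcon
    push Not at hcon
    nlinarith
  obtain ⟨w, w1, w2, w3, w4⟩ := hKw α hα hα1
  obtain ⟨L, hL⟩ : ∃ L, L = Real.log N := ⟨_, rfl⟩
  rw [← hL] at g1 g2 g3 g7 hαL
  have hL0 : 0 < L := by linarith
  obtain ⟨τ, hτ⟩ : ∃ τ, τ = α ^ (-(1 + ε)) := ⟨_, rfl⟩
  rw [← hτ] at w2 hhp ⊢
  have hτ1 : 1 ≤ τ := by
    rw [hτ]
    exact Real.one_le_rpow_of_pos_of_le_one_of_nonpos hα hα1 (by linarith)
  have hτL : τ ≤ L ^ (1 - ε ^ 2) := by
    calc τ = α ^ (-(1 + ε)) := hτ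
      _ ≤ (L ^ (-(1 - ε))) ^ (-(1 + ε)) :=
          Real.rpow_le_rpow_of_nonpos (by positivity) hαL (by linarith)
      _ = L ^ (1 - ε ^ 2) := by
          rw [← Real.rpow_mul hL0.le]
          congr 1
          ring
  have hwL : (w : ℝ) ≤ L / 4000 := by
    have h1 : L ^ (1 - ε ^ 2) * L ^ (ε ^ 2) = L := by
      rw [← Real.rpow_add hL0, sub_add_cancel, Real.rpow_one]
    have h2 : 0 < L ^ (1 - ε ^ 2) := by positivity
    have h3 : L ^ (1 - ε ^ 2) * (8000 * K) ≤ L := by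
      calc L ^ (1 - ε ^ 2) * (8000 * K) ≤ L ^ (1 - ε ^ 2) * L ^ (ε ^ 2) :=
            mul_le_mul_of_nonneg_left g1 h2.le
        _ = L := h1
    have h4 : 2 * K * τ ≤ 2 * K * L ^ (1 - ε ^ 2) := mul_le_mul_of_nonneg_left hτL (by linarith)
    linarith
  have hwL1 : (w : ℝ) ≤ L := by linarith
  have h4w : (4 : ℝ) ^ w ≤ Real.exp (2 * w) := by
    have h2 : (4 : ℝ) ≤ Real.exp 2 := by
      have := Real.exp_one_gt_d9
      have h3 : Real.exp 2 = Real.exp 1 * Real.exp 1 := by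
        rw [← Real.exp_add]
        norm_num
      rw [h3]
      nlinarith
    calc (4 : ℝ) ^ w ≤ (Real.exp 2) ^ w := pow_le_pow_left₀ (by norm_num) h2 w
      _ = Real.exp (w * 2) := by rw [← Real.exp_nat_mul]
      _ = Real.exp (2 * w) := by rw [mul_comm]
  have h4N : (4 : ℝ) ^ w ≤ (N : ℝ) ^ (1 / 2000 : ℝ) := by
    refine h4w.trans ?_
    rw [Real.rpow_def_of_pos hN0, ← hL]
    apply Real.exp_le_exp.2
    linarith
  obtain ⟨W, hW⟩ : ∃ W, W = primorial w := ⟨_, rfl⟩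
  have hW0 : 0 < W := by rw [hW]; exact primorial_pos w
  have hW0r : (0 : ℝ) < W := by exact_mod_cast hW0
  have hW4 : (W : ℝ) ≤ 4 ^ w := by
    rw [hW]
    exact_mod_cast primorial_le_four_pow w
  have hWN : W ≤ N := by
    have h1 : (W : ℝ) ≤ N := by
      calc (W : ℝ) ≤ (N : ℝ) ^ (1 / 2000 : ℝ) := hW4.trans h4N
        _ ≤ (N : ℝ) ^ (1 : ℝ) := Real.rpow_le_rpow_of_exponent_le hN1r (by norm_num)
        _ = N := Real.rpow_one _
    exact_mod_cast h1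
  have hσ2 : 99 / 100 ≤ 1 / (1 + ε) := by
    rw [div_le_div_iff₀ (by norm_num) (by linarith)]
    linarith
  have hσ3 : 1 / (1 + ε) ≤ 1 := by
    rw [div_le_one (by linarith)]
    linarith
  have hhw : ∀ p : ℕ, p.Prime → p ≤ w → ¬ (p : ℤ) ∣ qf a b c h := by
    intro p hp hpw
    apply hhp p hp
    have h1 : (p : ℝ) ≤ w := by exact_mod_cast hpw
    have h2 : 0 ≤ (2 * K + 2 + C₀) * τ := by positivity
    linarith
  have hLα : L⁻¹ ≤ α := by
    calc L⁻¹ = L ^ (-1 : ℝ) := by rw [Real.rpow_neg_one]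
      _ ≤ L ^ (-(1 - ε)) := Real.rpow_le_rpow_of_exponent_le g7 (by linarith)
      _ ≤ α := hαL
  have hWα : 2 * (W : ℝ) ≤ α * N := by
    have h1 : 2 * (W : ℝ) * L ≤ N := by
      calc 2 * (W : ℝ) * L ≤ (N : ℝ) ^ (1 / 10 : ℝ) * (N : ℝ) ^ (1 / 2000 : ℝ) * (N : ℝ) ^ (1 / 2000 : ℝ) := by
            apply mul_le_mul _ g3.le hL0.le (by positivity)
            exact mul_le_mul (by linarith) (hW4.trans h4N) (Nat.cast_nonneg _) (by positivity)
        _ = (N : ℝ) ^ (101 / 1000 : ℝ) := by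
            rw [← Real.rpow_add hN0, ← Real.rpow_add hN0]
            norm_num
        _ ≤ (N : ℝ) ^ (1 : ℝ) := Real.rpow_le_rpow_of_exponent_le hN1r (by norm_num)
        _ = N := Real.rpow_one _
    calc 2 * (W : ℝ) ≤ L⁻¹ * N := by
          rw [inv_mul_eq_div, le_div_iff₀ hL0]
          exact h1
      _ ≤ α * N := mul_le_mul_of_nonneg_right hLα hN0.le
  have hmain := total3 N W hW0 hWN A hA α hα hcard hWα (c₁ / L) C₅ ((w : ℝ) ^ (-(1 / (1 + ε)))) (by positivity) hC₅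
    (w4.trans (div_le_div_of_nonneg_left hα.le (by positivity) (le_max_right _ _)))
    (fun x => 0 < WW N zet ups lam (lam / ups) (qf a b c (h + ((x.2 : ℤ) - x.1))).natAbs)
    (fun A₁ A₂ hA₁ hA₂ hAc r hm₁ hm₂ => by
      have h1 := hcls N hNN1 w ((le_max_left _ _).trans w1) ((le_max_right _ _).trans w1)
        (lt_of_le_of_lt hwL1 g2) (hwL1.trans g3.le)
        (by rw [← hW]; exact hW4.trans h4N) (1 / (1 + ε)) hσ2 hσ3 w3 h hhw A₁ A₂ hA₁ hA₂ hAc r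
        (by rw [← hW]; exact hm₁) (by rw [← hW]; exact hm₂)
      rw [← hW, ← hL] at h1
      exact h1)
  -- the exceptional pairs
  have hb := hbad N hNN2 h hh A hA
  have hexc : κ * N * (N : ℝ) ^ (9 / 10 : ℝ) ≤ c₁ / L * (α ^ 2 * N ^ 2 / (64 * 4 ^ w)) := by
    rw [← hL, div_le_div_iff₀ hc₁ (by positivity)] at g5
    have h1 : 64 * κ * L ^ 3 * ((N : ℝ) * (N : ℝ) ^ (9 / 10 : ℝ) * 4 ^ w) ≤ c₁ * N ^ 2 := by
      calc 64 * κ * L ^ 3 * ((N : ℝ) * (N : ℝ) ^ (9 / 10 : ℝ) * 4 ^ w)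
          ≤ ((N : ℝ) ^ (1 / 20 : ℝ) * c₁) * ((N : ℝ) * (N : ℝ) ^ (9 / 10 : ℝ) * (N : ℝ) ^ (1 / 2000 : ℝ)) := by
            apply mul_le_mul g5 _ (by positivity) (by positivity)
            exact mul_le_mul_of_nonneg_left h4N (by positivity)
        _ = c₁ * N * ((N : ℝ) ^ (1 / 20 : ℝ) * (N : ℝ) ^ (9 / 10 : ℝ) * (N : ℝ) ^ (1 / 2000 : ℝ)) := by ring
        _ = c₁ * N * (N : ℝ) ^ (1901 / 2000 : ℝ) := by
            rw [← Real.rpow_add hN0, ← Real.rpow_add hN0]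
            norm_num
        _ ≤ c₁ * N * (N : ℝ) ^ (1 : ℝ) := by
            apply mul_le_mul_of_nonneg_left _ (by positivity)
            exact Real.rpow_le_rpow_of_exponent_le hN1r (by norm_num)
        _ = c₁ * N ^ 2 := by rw [Real.rpow_one]; ring
    have h2 : L⁻¹ ^ 2 ≤ α ^ 2 := pow_le_pow_left₀ (by positivity) hLα 2
    calc κ * N * (N : ℝ) ^ (9 / 10 : ℝ) =
        (64 * κ * L ^ 3 * ((N : ℝ) * (N : ℝ) ^ (9 / 10 : ℝ) * 4 ^ w)) / (L ^ 3 * (64 * 4 ^ w)) := by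
          field_simp
      _ ≤ (c₁ * N ^ 2) / (L ^ 3 * (64 * 4 ^ w)) := div_le_div_of_nonneg_right h1 (by positivity)
      _ = c₁ / L * (L⁻¹ ^ 2 * N ^ 2 / (64 * 4 ^ w)) := by
          field_simp
      _ ≤ _ := by gcongr
  obtain ⟨PP, hPP⟩ : ∃ PP, PP = (A ×ˢ A).filter (fun x => x.1 < x.2 ∧
    0 < WW N zet ups lam (lam / ups) (qf a b c (h + ((x.2 : ℤ) - x.1))).natAbs) := ⟨_, rfl⟩
  obtain ⟨BB, hBB⟩ : ∃ BB, BB = (A ×ˢ A).filter (fun x =>
      BadV N (qf a b c (h + ((x.2 : ℤ) - x.1))).natAbs) := ⟨_, rfl⟩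
  obtain ⟨TT, hTT⟩ : ∃ TT, TT = (A ×ˢ A).filter (fun x => x.1 < x.2 ∧
        Good3 N (qf a b c (h + ((x.2 : ℤ) - x.1))).natAbs) := ⟨_, rfl⟩
  rw [← hPP] at hmain
  rw [← hBB] at hb
  rw [← hTT]
  have hsub : PP ⊆ TT ∪ BB := by
    rintro ⟨x, y⟩ hx
    rw [hPP, mem_filter, mem_product] at hx
    obtain ⟨⟨ha, hb'⟩, hxy, hx2⟩ := hx
    rw [mem_union]
    by_cases hsq : BadV N (qf a b c (h + ((y : ℤ) - x))).natAbs
    · right
      rw [hBB, mem_filter, mem_product]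
      exact ⟨⟨ha, hb'⟩, hsq⟩
    · left
      rw [hTT, mem_filter, mem_product]
      refine ⟨⟨ha, hb'⟩, hxy, ?_⟩
      apply good_of' a b c hD N (by omega) g4'
      · have h1 := mem_Icc.1 (hA ha)
        have h2 := mem_Icc.1 (hA hb')
        have h3 := abs_le.1 hh
        rw [abs_le]
        constructor <;> omega
      · exact hx2
      · intro q hq hqd
        exact hsq ⟨q, hq, hqd⟩
  have hcardP : (PP.card : ℝ) ≤ TT.card + BB.card := by
    have h1 := (card_le_card hsub).trans (card_union_le _ _)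
    exact_mod_cast h1
  have hW2 : c₁ / L * (α ^ 2 * N ^ 2 / (32 * 4 ^ w)) ≤ c₁ / L * (α ^ 2 * N ^ 2 / (32 * W)) := by
    gcongr
  have e1 : c₁ / L * (α ^ 2 * N ^ 2 / (32 * 4 ^ w)) = c₁ / L * (α ^ 2 * N ^ 2 / (64 * 4 ^ w)) +
      c₁ / L * (α ^ 2 * N ^ 2 / (64 * 4 ^ w)) := by
    field_simp
    norm_num
  have hlow : c₁ / L * (α ^ 2 * N ^ 2 / (64 * 4 ^ w)) ≤ (TT.card : ℝ) := by linarith
  refine le_trans ?_ hlow
  -- the constant
  have hα2 : Real.exp (-(2 * τ)) ≤ α ^ 2 := by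
    have h1 : α⁻¹ ≤ τ := by
      calc α⁻¹ = α ^ (-1 : ℝ) := by rw [Real.rpow_neg_one]
        _ ≤ α ^ (-(1 + ε)) := Real.rpow_le_rpow_of_exponent_ge hα hα1 (by linarith)
        _ = τ := hτ.symm
    have h2 : α⁻¹ ≤ Real.exp τ := by
      have := Real.add_one_le_exp τ
      linarith
    have h3 : (Real.exp τ)⁻¹ ≤ α := by
      rw [inv_le_comm₀ (Real.exp_pos _) hα]
      exact h2
    calc Real.exp (-(2 * τ)) = ((Real.exp τ)⁻¹) ^ 2 := by
          rw [← Real.exp_neg, ← Real.exp_nat_mul]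
          congr 1
          push_cast
          ring
      _ ≤ α ^ 2 := pow_le_pow_left₀ (by positivity) h3 2
  have h4w' : Real.exp (-(4 * K * τ)) ≤ ((4 : ℝ) ^ w)⁻¹ := by
    rw [Real.exp_neg]
    apply inv_anti₀ (by positivity)
    refine h4w.trans (Real.exp_le_exp.2 ?_)
    linarith
  have hv' : Real.exp (-(C₀ * τ)) ≤ c₁ / 64 := by
    refine le_trans (Real.exp_le_exp.2 ?_) hC₀1
    have := mul_le_mul_of_nonneg_left hτ1 hC₀0
    linarith
  have hprod : Real.exp (-((4 * K + 2 + C₀) * τ)) ≤ c₁ / 64 * α ^ 2 * ((4 : ℝ) ^ w)⁻¹ := by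
    calc Real.exp (-((4 * K + 2 + C₀) * τ)) =
          Real.exp (-(C₀ * τ)) * Real.exp (-(2 * τ)) * Real.exp (-(4 * K * τ)) := by
          rw [← Real.exp_add, ← Real.exp_add]
          congr 1
          ring
      _ ≤ _ := by gcongr
  rw [← hL]
  calc Real.exp (-((4 * K + 2 + C₀) * τ)) * N ^ 2 / L
      ≤ (c₁ / 64 * α ^ 2 * ((4 : ℝ) ^ w)⁻¹) * N ^ 2 / L := by gcongr
    _ = c₁ / L * (α ^ 2 * N ^ 2 / (64 * 4 ^ w)) := by
        field_simp

end Pool.Agent.H14.P3Q
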